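import Mathlib

set_option autoImplicit false

namespace Pool.Agent.MP_f38670_al

open Finset MvPolynomial

/-- Index type of the variables: `inl i` is `t_i`, `inr (m, S)` is `s_{m,S}`. -/
abbrev Idx : Type := ℕ ⊕ (ℕ × Finset ℕ)

/-- The polynomial ring. -/
abbrev PolA : Type := MvPolynomial Idx (ZMod 2)

/-- The base field. -/
abbrev BaseK : Type := FractionRing PolA

noncomputable def tA (i : ℕ) : PolA := X (Sum.inl i)

noncomputable def sA (m : ℕ) (S : Finset ℕ) : PolA := X (Sum.inr (m, S))

instance : CharP PolA 2 := inferInstance

theorem pderiv_prod_tA (m : ℕ) (S : Finset ℕ) (hm : m ∉ S) :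
    pderiv (Sum.inl m : Idx) (∏ i ∈ S, tA i) = 0 := by
  induction S using Finset.induction_on with
  | empty => simp
  | insert a S ha ih =>
    rw [Finset.prod_insert ha, Derivation.leibniz, ih (fun h => hm (Finset.mem_insert_of_mem h))]
    have hne : a ≠ m := fun h => hm (h ▸ Finset.mem_insert_self _ _)
    have : pderiv (Sum.inl m : Idx) (tA a) = 0 := by
      unfold tA
      rw [pderiv_X_of_ne]
      intro h
      exact hne (Sum.inl.inj h)
    rw [this]
    simp

theorem pderiv_term (m : ℕ) (S : Finset ℕ) (hm : m ∉ S) (p : PolA) :
    pderiv (Sum.inl m : Idx) (p * p * ∏ i ∈ S, tA i) = 0 := by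
  rw [Derivation.leibniz, pderiv_prod_tA m S hm, Derivation.leibniz]
  simp only [smul_eq_mul, mul_zero, zero_add]
  rw [CharTwo.add_self_eq_zero, mul_zero]

theorem A_li (m : ℕ) : ∀ (p : Finset ℕ → PolA),
    (∑ S ∈ (range m).powerset, p S * p S * ∏ i ∈ S, tA i = 0) →
    ∀ S ∈ (range m).powerset, p S = 0 := by
  induction m with
  | zero =>
    intro p h S hS
    simp only [range_zero, powerset_empty, sum_singleton, prod_empty, mul_one] at h
    simp only [range_zero, powerset_empty, mem_singleton] at hS
    subst hS
    exact mul_self_eq_zero.1 h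
  | succ m ih =>
    intro p h
    rw [Finset.range_add_one, Finset.sum_powerset_insert Finset.notMem_range_self] at h
    set F := ∑ S ∈ (range m).powerset, p S * p S * ∏ i ∈ S, tA i with hF
    have hG : ∑ S ∈ (range m).powerset,
        p (insert m S) * p (insert m S) * ∏ i ∈ insert m S, tA i
        = tA m * ∑ S ∈ (range m).powerset,
          p (insert m S) * p (insert m S) * ∏ i ∈ S, tA i := by
      rw [Finset.mul_sum]
      apply Finset.sum_congr rfl
      intro S hS
      have hmS : m ∉ S := fun hmem =>
        Finset.notMem_range_self (Finset.mem_powerset.1 hS hmem)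
      rw [Finset.prod_insert hmS]
      ring
    rw [hG] at h
    set G := ∑ S ∈ (range m).powerset,
          p (insert m S) * p (insert m S) * ∏ i ∈ S, tA i with hGdef
    have hdF : pderiv (Sum.inl m : Idx) F = 0 := by
      rw [hF, map_sum]
      apply Finset.sum_eq_zero
      intro S hS
      apply pderiv_term
      exact fun hmem => Finset.notMem_range_self (Finset.mem_powerset.1 hS hmem)
    have hdG : pderiv (Sum.inl m : Idx) G = 0 := by
      rw [hGdef, map_sum]
      apply Finset.sum_eq_zero
      intro S hS
      apply pderiv_term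
      exact fun hmem => Finset.notMem_range_self (Finset.mem_powerset.1 hS hmem)
    have hGz : G = 0 := by
      have h1 := congrArg (pderiv (Sum.inl m : Idx)) h
      rw [map_add, hdF, zero_add, Derivation.leibniz, hdG, map_zero] at h1
      simp only [smul_eq_mul, mul_zero, zero_add] at h1
      have h2 : pderiv (Sum.inl m : Idx) (tA m) = 1 := by
        unfold tA; rw [pderiv_X_self]
      rwa [h2, mul_one] at h1
    have hFz : F = 0 := by
      rw [hGz, mul_zero, add_zero] at h
      exact h
    have ih1 := ih p hFz
    have ih2 := ih (fun S => p (insert m S)) hGz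
    intro S hS
    rw [Finset.range_add_one] at hS
    by_cases hmS : m ∈ S
    · have h3 := ih2 (S.erase m) (by
        rw [Finset.mem_powerset] at hS ⊢
        intro i hi
        have := hS (Finset.mem_of_mem_erase hi)
        rcases Finset.mem_insert.1 this with h' | h'
        · exact absurd h' (Finset.ne_of_mem_erase hi)
        · exact h')
      simpa [Finset.insert_erase hmS] using h3
    · apply ih1 S
      rw [Finset.mem_powerset] at hS ⊢
      intro i hi
      rcases Finset.mem_insert.1 (hS hi) with h' | h'
      · exact absurd (h' ▸ hi) hmS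
      · exact h'

end Pool.Agent.MP_f38670_al
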