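import Pool.Agent.MP_f38670_al.Fld
import Pool.Agent.MP_f38670_al.Base

set_option autoImplicit false

namespace Pool.Agent.MP_f38670_al

open Finset MvPolynomial

noncomputable def tk (i : ℕ) : BaseK := algebraMap PolA BaseK (tA i)

noncomputable def sk (m : ℕ) (S : Finset ℕ) : BaseK := algebraMap PolA BaseK (sA m S)

instance : CharP BaseK 2 := charP_of_injective_algebraMap (IsFractionRing.injective PolA BaseK) 2

theorem k_li (m : ℕ) (g : Finset ℕ → BaseK)
    (h : ∑ S ∈ (range m).powerset, g S * g S * ∏ i ∈ S, tk i = 0) :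
    ∀ S ∈ (range m).powerset, g S = 0 := by
  classical
  obtain ⟨b, hb⟩ := IsLocalization.exist_integer_multiples_of_finset (nonZeroDivisors PolA)
    ((range m).powerset.image g)
  have hb0 : algebraMap PolA BaseK b ≠ 0 :=
    IsFractionRing.to_map_ne_zero_of_mem_nonZeroDivisors b.2
  have hex : ∀ S, ∃ p : PolA, S ∈ (range m).powerset →
      algebraMap PolA BaseK p = algebraMap PolA BaseK b * g S := by
    intro S
    by_cases hS : S ∈ (range m).powerset
    · obtain ⟨p, hp⟩ := hb (g S) (Finset.mem_image_of_mem g hS)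
      refine ⟨p, fun _ => ?_⟩
      rw [hp, Algebra.smul_def]
    · exact ⟨0, fun h => absurd h hS⟩
  choose p hp using hex
  have h1 : ∑ S ∈ (range m).powerset, p S * p S * ∏ i ∈ S, tA i = 0 := by
    apply IsFractionRing.injective PolA BaseK
    rw [map_zero, map_sum]
    have h2 : ∀ S ∈ (range m).powerset,
        algebraMap PolA BaseK (p S * p S * ∏ i ∈ S, tA i)
        = algebraMap PolA BaseK b * algebraMap PolA BaseK b * (g S * g S * ∏ i ∈ S, tk i) := by
      intro S hS
      rw [map_mul, map_mul, hp S hS, map_prod]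
      unfold tk
      ring
    rw [Finset.sum_congr rfl h2, ← Finset.mul_sum, h, mul_zero]
  intro S hS
  have h3 := A_li m p h1 S hS
  have h4 := hp S hS
  rw [h3, map_zero] at h4
  exact (mul_eq_zero.1 h4.symm).resolve_left hb0

section

variable {K : Type*} [Field K] [Algebra BaseK K] (y : ℕ → K)

theorem Y_sq (hy : ∀ i, y i * y i = algebraMap BaseK K (tk i)) (S : Finset ℕ) :
    Y y S * Y y S = algebraMap BaseK K (∏ i ∈ S, tk i) := by
  have h := Y_mul' y tk hy S S
  simpa [Y_empty] using h

theorem charP_K (K : Type*) [Field K] [Algebra BaseK K] : CharP K 2 :=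
  charP_of_injective_algebraMap (algebraMap BaseK K).injective 2

theorem Y_li (hy : ∀ i, y i * y i = algebraMap BaseK K (tk i)) :
    LinearIndependent BaseK (Y y) := by
  have := charP_K K
  rw [linearIndependent_iff']
  intro s g hg S0 hS0
  obtain ⟨m, hm⟩ : ∃ m, ∀ S ∈ s, S ⊆ range m := by
    refine ⟨(s.sup id).sup id + 1, fun S hS i hi => ?_⟩
    rw [Finset.mem_range]
    have h1 : i ∈ s.sup id := Finset.mem_sup.2 ⟨S, hS, hi⟩
    have h2 : i ≤ (s.sup id).sup id := Finset.le_sup (f := id) h1
    omega
  classical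
  set g' : Finset ℕ → BaseK := fun S => if S ∈ s then g S else 0 with hg'
  have hsub : s ⊆ (range m).powerset := fun S hS => Finset.mem_powerset.2 (hm S hS)
  have h1 : ∑ S ∈ (range m).powerset, g' S • Y y S = 0 := by
    rw [← Finset.sum_subset hsub (f := fun S => g' S • Y y S)]
    · rw [← hg]
      apply Finset.sum_congr rfl
      intro S hS
      simp [hg', hS]
    · intro S _ hS
      simp [hg', hS]
  have h2 : ∑ S ∈ (range m).powerset, g' S * g' S * ∏ i ∈ S, tk i = 0 := by
    apply (algebraMap BaseK K).injective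
    rw [map_zero, map_sum]
    have h3 : (∑ S ∈ (range m).powerset, g' S • Y y S) ^ 2
        = ∑ S ∈ (range m).powerset, (g' S • Y y S) ^ 2 := by
      exact CharTwo.sum_sq _ _
    rw [h1] at h3
    have h4 : ∀ S ∈ (range m).powerset,
        algebraMap BaseK K (g' S * g' S * ∏ i ∈ S, tk i) = (g' S • Y y S) ^ 2 := by
      intro S _
      rw [map_mul, ← Y_sq y hy S, Algebra.smul_def, map_mul]
      ring
    rw [Finset.sum_congr rfl h4, ← h3]
    ring
  have h5 := k_li m g' h2 S0 (hsub hS0)
  simpa [hg', hS0] using h5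

end

end Pool.Agent.MP_f38670_al
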