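import Pool.Agent.MP_f38670_al.Companion

set_option autoImplicit false

namespace Pool.Agent.MP_f38670_al

open Finset Polynomial Matrix

section

variable {k E ι : Type*} [Field k] [Field E] [Algebra k E] [Fintype ι] [DecidableEq ι]
  [Module.Finite k E]

/-- The polynomial `charpoly D - a X` in two variables. -/
noncomputable def gpoly (D : Derivation k E E) (a : E) : E[X][X] :=
  (LinearMap.charpoly (D : E →ₗ[k] E)).map ((C : E →+* E[X]).comp (algebraMap k E)) - C (C a * X)

theorem charpoly_natDegree' (e : Module.Basis ι k E) (D : Derivation k E E) :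
    (LinearMap.charpoly (D : E →ₗ[k] E)).natDegree = Fintype.card ι := by
  rw [LinearMap.charpoly_natDegree, Module.finrank_eq_card_basis e]

theorem gpoly_monic_natDegree (e : Module.Basis ι k E) (D : Derivation k E E) (a : E) :
    (gpoly D a).Monic ∧ (gpoly D a).natDegree = Fintype.card ι := by
  have hpos : 0 < Fintype.card ι := by
    have : 0 < Module.finrank k E := Module.finrank_pos
    rwa [Module.finrank_eq_card_basis e] at this
  set χ := (LinearMap.charpoly (D : E →ₗ[k] E)).map ((C : E →+* E[X]).comp (algebraMap k E))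
    with hχ
  have hmon : χ.Monic := (LinearMap.charpoly_monic _).map _
  have hdeg : χ.natDegree = Fintype.card ι := by
    rw [hχ, (LinearMap.charpoly_monic _).natDegree_map, charpoly_natDegree' e D]
  have hlt : (C (C a * X) : E[X][X]).natDegree < χ.natDegree := by
    rw [natDegree_C, hdeg]; exact hpos
  constructor
  · exact hmon.sub_of_left (degree_lt_degree hlt)
  · rw [gpoly, ← hχ, natDegree_sub_eq_left_of_natDegree_lt hlt, hdeg]

theorem charpoly_Zmat (e : Module.Basis ι k E) (D : Derivation k E E)
    (hconst : ∀ x, D x = 0 → x ∈ Set.range (algebraMap k E)) (a : E) (ε : ι → E)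
    (hε : ∀ l, l < Fintype.card ι →
      ∑ i, (D^[l] (e i)) * ε i = if l + 1 = Fintype.card ι then 1 else 0)
    (M : Matrix ι ι k) (N : ι → Matrix ι ι k)
    (hM : ∀ i, D (e i) = ∑ i', algebraMap k E (M i' i) * e i')
    (hN : ∀ i0 i, a * e i * e i0 = ∑ i', algebraMap k E (N i0 i' i) * e i') :
    (Zmat M N ε).charpoly = gpoly D a := by
  have hpos : 0 < Fintype.card ι := by
    have : 0 < Module.finrank k E := Module.finrank_pos
    rwa [Module.finrank_eq_card_basis e] at this
  set Z := Zmat M N ε with hZ
  set η : ℕ → ι → E[X] := fun j i => C (D^[j] (e i)) with hη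
  have hstep : ∀ j, j < Fintype.card ι → η j ᵥ* Z = η (j + 1) +
        (if j + 1 = Fintype.card ι then (C a * X) else 0) • η 0 := by
    intro j hj
    exact vecMul_Zmat D e ε a hε M N hM hN j hj
  have hpow : ∀ j, j < Fintype.card ι → η 0 ᵥ* Z ^ j = η j := by
    intro j
    induction j with
    | zero => intro _; simp
    | succ j ih =>
      intro hj
      rw [pow_succ, ← Matrix.vecMul_vecMul, ih (by omega), hstep j (by omega),
        if_neg (by omega), zero_smul, add_zero]
  have hpowr : η 0 ᵥ* Z ^ (Fintype.card ι) = η (Fintype.card ι) + (C a * X) • η 0 := by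
    obtain ⟨r, hr⟩ : ∃ r, Fintype.card ι = r + 1 := ⟨Fintype.card ι - 1, by omega⟩
    rw [hr, pow_succ, ← Matrix.vecMul_vecMul, hpow r (by omega), hstep r (by omega),
      if_pos (by omega)]
  obtain ⟨hmon, hdeg⟩ := gpoly_monic_natDegree e D a
  apply charpoly_eq_of_cyclic Z (η 0) ?_ _ hmon hdeg
  · -- annihilation
    have hch := fun x => ch_explicit e D x 0
    rw [gpoly, map_sub, Matrix.vecMul_sub, sub_eq_zero]
    have hC : aeval Z (C (C a * X) : E[X][X]) = (C a * X) • (1 : Matrix ι ι E[X]) := by
      rw [aeval_C, Algebra.algebraMap_eq_smul_one]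
    rw [hC, Matrix.vecMul_smul, Matrix.vecMul_one]
    set χ := (LinearMap.charpoly (D : E →ₗ[k] E)) with hχ
    have hdegχ : (χ.map ((C : E →+* E[X]).comp (algebraMap k E))).natDegree
        = Fintype.card ι := by
      rw [(LinearMap.charpoly_monic _).natDegree_map, charpoly_natDegree' e D]
    have hlead : χ.coeff (Fintype.card ι) = 1 := by
      rw [← charpoly_natDegree' e D]
      exact LinearMap.charpoly_monic _
    rw [aeval_eq_sum_range, hdegχ, Matrix.vecMul_sum, Finset.sum_range_succ]
    have h1 : ∀ j ∈ range (Fintype.card ι),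
        η 0 ᵥ* ((χ.map ((C : E →+* E[X]).comp (algebraMap k E))).coeff j • Z ^ j)
          = fun i => C (algebraMap k E (χ.coeff j) * D^[j] (e i)) := by
      intro j hj
      rw [Matrix.vecMul_smul, hpow j (Finset.mem_range.1 hj), coeff_map]
      funext i
      simp [hη]
    rw [Finset.sum_congr rfl h1, Matrix.vecMul_smul, hpowr, coeff_map, hlead, map_one, one_smul]
    rw [← add_assoc, add_eq_right]
    funext i
    have h2 := hch (e i)
    simp only [add_zero] at h2
    simp only [Pi.add_apply, Finset.sum_apply, Pi.zero_apply, hη]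
    rw [h2, ← map_sum, map_neg, add_neg_cancel]
  · intro u hu j0
    obtain ⟨c, hc⟩ := wronskian_surj e D hconst (Pi.single j0 1)
    have h1 : ∀ i, ∑ j, u j * C (D^[(j : ℕ)] (e i)) = 0 := by
      intro i
      have h := congrFun hu i
      simp only [Finset.sum_apply, Pi.smul_apply, smul_eq_mul, Pi.zero_apply] at h
      rw [← h]
      apply Finset.sum_congr rfl
      intro j _
      rw [hpow j j.2]
    have h2 : ∑ i, C (c i) * ∑ j, u j * C (D^[(j : ℕ)] (e i)) = 0 := by
      apply Finset.sum_eq_zero
      intro i _
      rw [h1 i, mul_zero]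
    have h3 : ∑ i, C (c i) * ∑ j, u j * C (D^[(j : ℕ)] (e i))
        = ∑ j, u j * C (∑ i, (D^[(j : ℕ)] (e i)) * c i) := by
      simp only [Finset.mul_sum, map_sum, C_mul]
      rw [Finset.sum_comm]
      apply Finset.sum_congr rfl
      intro j _
      apply Finset.sum_congr rfl
      intro i _
      ring
    rw [h3] at h2
    simp only [hc] at h2
    rw [Finset.sum_eq_single j0] at h2
    · simpa using h2
    · intro j _ hj
      simp [Pi.single_eq_of_ne hj]
    · intro h
      exact absurd (Finset.mem_univ _) h

end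

end Pool.Agent.MP_f38670_al
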