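import Mathlib

set_option autoImplicit false

namespace Pool.Agent.MP_f38670_al

open Finset Polynomial Matrix

/-- If a row vector `η` is cyclic for `Z`, then a monic polynomial of the right degree which
annihilates `η` is the characteristic polynomial. -/
theorem charpoly_eq_of_cyclic {R ι : Type*} [CommRing R] [Nontrivial R] [Fintype ι]
    [DecidableEq ι] (Z : Matrix ι ι R) (η : ι → R)
    (hind : ∀ u : Fin (Fintype.card ι) → R,
      (∑ j, u j • (η ᵥ* Z ^ (j : ℕ))) = 0 → ∀ j, u j = 0)
    (g : R[X]) (hg : g.Monic) (hdeg : g.natDegree = Fintype.card ι)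
    (h0 : η ᵥ* (aeval Z g) = 0) : Z.charpoly = g := by
  have hmon : Z.charpoly.Monic := Matrix.charpoly_monic Z
  have hdeg' : Z.charpoly.natDegree = Fintype.card ι := Matrix.charpoly_natDegree_eq_dim Z
  by_contra hne
  set d := Z.charpoly - g with hd
  have hz : d ≠ 0 := sub_ne_zero.2 hne
  have h1 : η ᵥ* (aeval Z d) = 0 := by
    rw [hd, map_sub, Matrix.aeval_self_charpoly, zero_sub, Matrix.vecMul_neg, h0, neg_zero]
  have hlt : d.natDegree < Fintype.card ι := by
    have hlt1 : d.degree < Z.charpoly.degree := by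
      apply degree_sub_lt_left
      · rw [degree_eq_natDegree hmon.ne_zero, degree_eq_natDegree hg.ne_zero, hdeg, hdeg']
      · exact hmon.ne_zero
      · rw [hmon, hg]
    rw [degree_eq_natDegree hmon.ne_zero, hdeg'] at hlt1
    exact (natDegree_lt_iff_degree_lt hz).2 hlt1
  have hsum : (aeval Z d) = ∑ j : Fin (Fintype.card ι), d.coeff j • Z ^ (j : ℕ) := by
    rw [Fin.sum_univ_eq_sum_range (fun j => d.coeff j • Z ^ j)]
    exact aeval_eq_sum_range' hlt Z
  rw [hsum] at h1
  have h2 : ∑ j : Fin (Fintype.card ι), d.coeff j • (η ᵥ* Z ^ (j : ℕ)) = 0 := by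
    rw [← h1]
    rw [Matrix.vecMul_sum]
    apply Finset.sum_congr rfl
    intro j _
    rw [Matrix.vecMul_smul]
  have h3 := hind (fun j => d.coeff j) h2
  have h4 := h3 ⟨d.natDegree, hlt⟩
  simp only [coeff_natDegree, leadingCoeff_eq_zero] at h4
  exact hz h4

end Pool.Agent.MP_f38670_al
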