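import Pool.Agent.MP_f38670_al.Wronskian2
import Pool.Agent.MP_f38670_al.Cyclic

set_option autoImplicit false

namespace Pool.Agent.MP_f38670_al

open Finset Polynomial Matrix

section

variable {k E ι : Type*} [Field k] [Field E] [Algebra k E] [Fintype ι] [DecidableEq ι]

theorem iterate_linear (D : Derivation k E E) (j : ℕ) (x : E) :
    D^[j] x = ((D : E →ₗ[k] E) ^ j) x := by
  rw [Module.End.pow_apply]; rfl

theorem iterate_sum (D : Derivation k E E) (j : ℕ) {κ : Type*} (s : Finset κ) (c : κ → k)
    (x : κ → E) : D^[j] (∑ i ∈ s, algebraMap k E (c i) * x i)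
      = ∑ i ∈ s, algebraMap k E (c i) * D^[j] (x i) := by
  rw [iterate_linear, map_sum]
  apply Finset.sum_congr rfl
  intro i _
  rw [← Algebra.smul_def, map_smul, Algebra.smul_def, iterate_linear]

theorem iterate_add' (D : Derivation k E E) (j : ℕ) (x y : E) :
    D^[j] (x + y) = D^[j] x + D^[j] y := by
  rw [iterate_linear, iterate_linear, iterate_linear, map_add]

theorem leib_sum (D : Derivation k E E) (e ε : ι → E) (r : ℕ)
    (hε : ∀ l, l < r → ∑ i, (D^[l] (e i)) * ε i = if l + 1 = r then 1 else 0) (j : ℕ) :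
    ∀ (l : ℕ) (x : E), j + l < r →
      ∑ i, ε i * D^[j] (x * D^[l] (e i)) = if j + l + 1 = r then x else 0 := by
  induction j with
  | zero =>
    intro l x hl
    simp only [Function.iterate_zero, id_eq, zero_add] at hl ⊢
    have h1 : ∑ i, ε i * (x * D^[l] (e i)) = x * ∑ i, (D^[l] (e i)) * ε i := by
      rw [Finset.mul_sum]
      apply Finset.sum_congr rfl
      intro i _
      ring
    rw [h1, hε l hl]
    split_ifs <;> simp
  | succ j ih =>
    intro l x hl
    have h1 : ∀ i ∈ (Finset.univ : Finset ι), ε i * D^[j + 1] (x * D^[l] (e i))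
        = ε i * D^[j] (D x * D^[l] (e i)) + ε i * D^[j] (x * D^[l + 1] (e i)) := by
      intro i _
      rw [Function.iterate_succ_apply, Derivation.leibniz, ← mul_add, ← iterate_add']
      congr 2
      rw [Function.iterate_succ_apply']
      simp only [smul_eq_mul]
      ring
    rw [Finset.sum_congr rfl h1, Finset.sum_add_distrib, ih l (D x) (by omega),
      ih (l + 1) x (by omega)]
    rw [if_neg (by omega), zero_add]
    by_cases h : j + (l + 1) + 1 = r
    · rw [if_pos h, if_pos (by omega)]
    · rw [if_neg h, if_neg (by omega)]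

/-- The matrix over `E[X]` obtained from the operator `D + X * (rank one)`. -/
noncomputable def Zmat (M : Matrix ι ι k) (N : ι → Matrix ι ι k) (ε : ι → E) :
    Matrix ι ι E[X] :=
  M.map (fun c => C (algebraMap k E c)) +
    ∑ i0, (C (ε i0) * X) • (N i0).map (fun c => C (algebraMap k E c))

theorem vecMul_Zmat (D : Derivation k E E) (e ε : ι → E) (a : E)
    (hε : ∀ l, l < Fintype.card ι →
      ∑ i, (D^[l] (e i)) * ε i = if l + 1 = Fintype.card ι then 1 else 0)
    (M : Matrix ι ι k) (N : ι → Matrix ι ι k)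
    (hM : ∀ i, D (e i) = ∑ i', algebraMap k E (M i' i) * e i')
    (hN : ∀ i0 i, a * e i * e i0 = ∑ i', algebraMap k E (N i0 i' i) * e i')
    (j : ℕ) (hj : j < Fintype.card ι) :
    (fun i => (C (D^[j] (e i)) : E[X])) ᵥ* (Zmat M N ε) =
      (fun i => (C (D^[j + 1] (e i)) : E[X])) +
        (if j + 1 = Fintype.card ι then (C a * X) else 0) • (fun i => (C (e i) : E[X])) := by
  funext i
  have h1 : ∑ i', C (D^[j] (e i')) * C (algebraMap k E (M i' i)) = C (D^[j + 1] (e i)) := by
    rw [Function.iterate_succ_apply, hM, iterate_sum, map_sum]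
    apply Finset.sum_congr rfl
    intro i' _
    rw [← C_mul, mul_comm]
  have h2 : ∀ i0, ∑ i', C (D^[j] (e i')) * C (algebraMap k E (N i0 i' i))
      = C (D^[j] (a * e i * e i0)) := by
    intro i0
    rw [hN, iterate_sum, map_sum]
    apply Finset.sum_congr rfl
    intro i' _
    rw [← C_mul, mul_comm]
  have h3 := leib_sum D e ε (Fintype.card ι) hε j 0 (a * e i) (by simpa using hj)
  simp only [Function.iterate_zero, id_eq, add_zero] at h3
  have h4 : ((fun i => (C (D^[j] (e i)) : E[X])) ᵥ* (Zmat M N ε)) i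
      = ∑ i', C (D^[j] (e i')) * C (algebraMap k E (M i' i)) +
        ∑ i0, (C (ε i0) * X) * ∑ i', C (D^[j] (e i')) * C (algebraMap k E (N i0 i' i)) := by
    simp only [Matrix.vecMul, dotProduct, Zmat, Matrix.add_apply, Matrix.map_apply,
      Matrix.sum_apply, Matrix.smul_apply, smul_eq_mul, mul_add, Finset.sum_add_distrib,
      Finset.mul_sum]
    congr 1
    rw [Finset.sum_comm]
    apply Finset.sum_congr rfl
    intro i0 _
    apply Finset.sum_congr rfl
    intro i' _
    ring
  rw [h4, h1]
  simp only [h2, Pi.add_apply, Pi.smul_apply, smul_eq_mul]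
  congr 1
  have h5 : ∑ i0, (C (ε i0) * X) * C (D^[j] (a * e i * e i0))
      = C (∑ i0, ε i0 * D^[j] (a * e i * e i0)) * X := by
    rw [map_sum, Finset.sum_mul]
    apply Finset.sum_congr rfl
    intro i0 _
    rw [C_mul]
    ring
  rw [h5, h3]
  split_ifs
  · rw [C_mul]; ring
  · simp

end

end Pool.Agent.MP_f38670_al
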