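import Pool.Agent.MP_f38670_al.Good

set_option autoImplicit false

namespace Pool.Agent.MP_f38670_al

open Finset MvPolynomial

theorem eventually_ok (p : PolA) : ∃ m0, ∀ m ≥ m0, p ∈ supported (ZMod 2) (okVars m) := by
  classical
  refine ⟨(p.vars.sup (fun v => Sum.elim (fun _ => 0) (fun x => x.1) v)) + 1, fun m hm => ?_⟩
  rw [mem_supported]
  intro v hv S hvS
  have h1 : (Sum.elim (fun _ => 0) (fun x => x.1) v : ℕ) ≤
      p.vars.sup (fun v => Sum.elim (fun _ => 0) (fun x => x.1) v) :=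
    Finset.le_sup (f := fun v : Idx => (Sum.elim (fun _ => 0) (fun x => x.1) v : ℕ)) hv
  rw [hvS] at h1
  simp only [Sum.elim_inr] at h1
  omega

section

variable {K : Type*} [Field K] [Algebra BaseK K]

theorem exists_scale (y : ℕ → K) (hsp : ⊤ ≤ Submodule.span BaseK (Set.range (Y y))) (a : K) :
    ∃ p : PolA, p ≠ 0 ∧ ∃ m0, ∀ m ≥ m0, emb K p * a ∈ Gd y m := by
  have ha : a ∈ Submodule.span BaseK (Set.range (Y y)) := hsp trivial
  refine Submodule.span_induction
    (p := fun a _ => ∃ p : PolA, p ≠ 0 ∧ ∃ m0, ∀ m ≥ m0, emb K p * a ∈ Gd y m) ?_ ?_ ?_ ?_ ha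
  · rintro _ ⟨S, rfl⟩
    refine ⟨1, one_ne_zero, S.sup id + 1, fun m hm => ?_⟩
    rw [map_one, one_mul]
    apply Gd_Y
    intro i hi
    have : i ≤ S.sup id := Finset.le_sup (f := id) hi
    exact Finset.mem_range.2 (by omega)
  · exact ⟨1, one_ne_zero, 0, fun m _ => by simp⟩
  · rintro x z _ _ ⟨p, hp, m0, hm0⟩ ⟨q, hq, m1, hm1⟩
    obtain ⟨m2, hm2⟩ := eventually_ok p
    obtain ⟨m3, hm3⟩ := eventually_ok q
    refine ⟨p * q, mul_ne_zero hp hq, max (max m0 m1) (max m2 m3), fun m hm => ?_⟩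
    have e1 : m ≥ m0 := le_trans (le_trans (le_max_left _ _) (le_max_left _ _)) hm
    have e2 : m ≥ m1 := le_trans (le_trans (le_max_right _ _) (le_max_left _ _)) hm
    have e3 : m ≥ m2 := le_trans (le_trans (le_max_left _ _) (le_max_right _ _)) hm
    have e4 : m ≥ m3 := le_trans (le_trans (le_max_right _ _) (le_max_right _ _)) hm
    have h1 : emb K (p * q) * (x + z) = emb K q * (emb K p * x) + emb K p * (emb K q * z) := by
      rw [map_mul]; ring
    rw [h1]
    exact add_mem (emb_mul_mem_Gd y m _ (mem_Rm m q (hm3 m e4)) _ (hm0 m e1))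
      (emb_mul_mem_Gd y m _ (mem_Rm m p (hm2 m e3)) _ (hm1 m e2))
  · rintro c x _ ⟨p, hp, m0, hm0⟩
    obtain ⟨u, w, hw, hc⟩ := IsFractionRing.div_surjective (A := PolA) c
    have hw0 : w ≠ 0 := nonZeroDivisors.ne_zero hw
    obtain ⟨m1, hm1⟩ := eventually_ok u
    refine ⟨w * p, mul_ne_zero hw0 hp, max m0 m1, fun m hm => ?_⟩
    have hwk : algebraMap PolA BaseK w ≠ 0 := by
      intro h
      apply hw0
      apply IsFractionRing.injective PolA BaseK
      rw [h, map_zero]
    have h1 : emb K (w * p) * (c • x) = emb K u * (emb K p * x) := by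
      rw [Algebra.smul_def, ← hc, map_mul]
      unfold emb
      simp only [RingHom.comp_apply]
      rw [map_div₀]
      have : algebraMap BaseK K (algebraMap PolA BaseK w) ≠ 0 := by
        intro h
        apply hwk
        apply (algebraMap BaseK K).injective
        rw [h, map_zero]
      field_simp
    rw [h1]
    exact emb_mul_mem_Gd y m _ (mem_Rm m u (hm1 m (le_trans (le_max_right _ _) hm))) _
      (hm0 m (le_trans (le_max_left _ _) hm))

end

end Pool.Agent.MP_f38670_al
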