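import Pool.Agent.MP_f38670_al.LevelIrr
import Pool.Agent.MP_f38670_al.Scale

set_option autoImplicit false

namespace Pool.Agent.MP_f38670_al

open Finset MvPolynomial

section

variable {K : Type*} [Field K] [Algebra BaseK K] [CharP K 2] (y : ℕ → K)
  (hy : ∀ i, y i * y i = algebraMap BaseK K (tk i))

include hy in
theorem y_ne_zero (m : ℕ) : y m ≠ 0 := by
  intro h
  have h1 := hy m
  rw [h, mul_zero] at h1
  have h2 : tk m = 0 := by
    apply (algebraMap BaseK K).injective
    rw [← h1, map_zero]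
  have h3 : tA m = 0 := by
    apply IsFractionRing.injective PolA BaseK
    rw [map_zero]
    exact h2
  unfold tA at h3
  exact X_ne_zero _ h3

theorem y_notMem_Em (m : ℕ) : y m ∉ Em y hy m := by
  rw [mem_Em, ← Y_singleton y m]
  apply (Y_li y hy).notMem_span_image
  intro h
  have := h (Finset.mem_singleton_self m)
  simp at this

theorem y_mem_Em (m : ℕ) : y m ∈ Em y hy (m + 1) := by
  rw [← Y_singleton y m]
  apply Y_mem_Em
  intro i hi
  rw [Finset.mem_singleton] at hi
  rw [hi]
  exact Finset.self_mem_range_succ m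

theorem Em_succ (m : ℕ) (x : K) (hx : x ∈ Em y hy (m + 1)) :
    ∃ p ∈ Em y hy m, ∃ q ∈ Em y hy m, x = p + q * y m := by
  rw [mem_Em] at hx
  refine Submodule.span_induction (p := fun x _ =>
    ∃ p ∈ Em y hy m, ∃ q ∈ Em y hy m, x = p + q * y m) ?_ ?_ ?_ ?_ hx
  · rintro _ ⟨S, hS, rfl⟩
    by_cases hm : m ∈ S
    · refine ⟨0, zero_mem _, Y y (S.erase m), Y_mem_Em y hy m _ ?_, ?_⟩
      · intro i hi
        have h1 := Finset.mem_range.1 (hS (Finset.mem_of_mem_erase hi))
        have h2 := Finset.ne_of_mem_erase hi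
        exact Finset.mem_range.2 (by omega)
      · unfold Y
        rw [zero_add, Finset.prod_erase_mul _ _ hm]
    · refine ⟨Y y S, Y_mem_Em y hy m _ ?_, 0, zero_mem _, by simp⟩
      intro i hi
      have h1 := Finset.mem_range.1 (hS hi)
      have h2 : i ≠ m := fun h => hm (h ▸ hi)
      exact Finset.mem_range.2 (by omega)
  · exact ⟨0, zero_mem _, 0, zero_mem _, by simp⟩
  · rintro x z _ _ ⟨p, hp, q, hq, rfl⟩ ⟨p', hp', q', hq', rfl⟩
    exact ⟨p + p', add_mem hp hp', q + q', add_mem hq hq', by ring⟩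
  · rintro c x _ ⟨p, hp, q, hq, rfl⟩
    exact ⟨c • p, (Em y hy m).smul_mem hp, c • q, (Em y hy m).smul_mem hq, by
      rw [smul_add, smul_mul_assoc]⟩

theorem decomp_unique (m : ℕ) (p q : K) (hp : p ∈ Em y hy m) (hq : q ∈ Em y hy m)
    (h : p + q * y m = 0) : p = 0 ∧ q = 0 := by
  have hq0 : q = 0 := by
    by_contra hne
    apply y_notMem_Em y hy m
    have h1 : y m = - p / q := by
      field_simp
      linear_combination h
    rw [h1]
    exact div_mem (neg_mem hp) hq
  refine ⟨?_, hq0⟩
  rw [hq0, zero_mul, add_zero] at h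
  exact h

include hy in
theorem vv_ne_zero (m : ℕ) : vv y m ≠ 0 := by
  intro h
  have h1 := linearIndependent_iff'.1 (Y_li y hy) (range m).powerset (fun S => sk m S) (by
    rw [← h]
    unfold vv
    apply Finset.sum_congr rfl
    intro S _
    rw [Algebra.smul_def]
    rfl) ∅ (Finset.empty_mem_powerset _)
  have h3 : sA m ∅ = 0 := by
    apply IsFractionRing.injective PolA BaseK
    rw [map_zero]
    exact h1
  unfold sA at h3
  exact X_ne_zero _ h3

theorem consts (D : Derivation BaseK K K)
    (hD : ∀ S, D (Y y S) = (∑ i ∈ S, vv y i) * Y y S) (m : ℕ) :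
    ∀ x ∈ Em y hy m, D x = 0 → ∃ c, algebraMap BaseK K c = x := by
  induction m with
  | zero =>
    intro x hx _
    rw [mem_Em] at hx
    refine Submodule.span_induction (p := fun x _ => ∃ c, algebraMap BaseK K c = x)
      ?_ ?_ ?_ ?_ hx
    · rintro _ ⟨S, hS, rfl⟩
      have : S = ∅ := by
        apply Finset.subset_empty.1
        simpa using hS
      rw [this, Y_empty]
      exact ⟨1, map_one _⟩
    · exact ⟨0, map_zero _⟩
    · rintro x z _ _ ⟨c, rfl⟩ ⟨d, rfl⟩
      exact ⟨c + d, map_add _ _ _⟩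
    · rintro c x _ ⟨d, rfl⟩
      exact ⟨c * d, by rw [map_mul, Algebra.smul_def]⟩
  | succ m ih =>
    intro x hx hDx
    obtain ⟨p, hp, q, hq, rfl⟩ := Em_succ y hy m x hx
    have hDy : D (y m) = vv y m * y m := by
      have := hD {m}
      simpa [Y_singleton] using this
    have h1 : D p + (D q + vv y m * q) * y m = 0 := by
      rw [map_add, Derivation.leibniz, hDy] at hDx
      simp only [smul_eq_mul] at hDx
      rw [← hDx]
      ring
    have hDq : D q + vv y m * q ∈ Em y hy m :=
      add_mem (D_mem_Em y hy D hD m q hq) (mul_mem (vv_mem_Em y hy m m le_rfl) hq)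
    obtain ⟨h2, h3⟩ := decomp_unique y hy m _ _ (D_mem_Em y hy D hD m p hp) hDq h1
    have hq0 : q = 0 := by
      by_contra hne
      let U : Submodule BaseK K :=
        { carrier := {u | u ∈ Em y hy m ∧ D u + vv y m * u = 0}
          add_mem' := by
            rintro a b ⟨ha, ha'⟩ ⟨hb, hb'⟩
            refine ⟨add_mem ha hb, ?_⟩
            rw [map_add]
            linear_combination ha' + hb'
          zero_mem' := ⟨zero_mem _, by simp⟩
          smul_mem' := by
            rintro c a ⟨ha, ha'⟩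
            refine ⟨(Em y hy m).smul_mem ha, ?_⟩
            rw [D.map_smul, mul_smul_comm, ← smul_add, ha', smul_zero] }
      have h1E : (1 : K) ∈ Gd y m := by
        rw [← Y_empty y]
        exact Gd_Y y m ∅ (Finset.empty_subset _)
      have hall := irr_good y hy D hD m ih 1 one_ne_zero h1E U (fun u hu => hu.1)
        (by
          rw [Submodule.ne_bot_iff]
          exact ⟨q, ⟨hq, h3⟩, hne⟩)
        (by
          rintro u ⟨_, hu'⟩
          rw [hu', mul_zero]
          exact zero_mem _)
      have h4 := (hall 1 (one_mem _)).2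
      rw [D.map_one_eq_zero, zero_add, mul_one] at h4
      exact vv_ne_zero y hy m h4
    obtain ⟨c, hc⟩ := ih p hp h2
    exact ⟨c, by rw [hc, hq0, zero_mul, add_zero]⟩

/-- Irreducibility of `u ↦ D (a u) + v_m a u`. -/
theorem irr_T (D : Derivation BaseK K K)
    (hD : ∀ S, D (Y y S) = (∑ i ∈ S, vv y i) * Y y S) (m : ℕ)
    (a : K) (ha : a ≠ 0) (haE : a ∈ Em y hy m) (p : PolA) (hp : p ≠ 0)
    (hpa : emb K p * a ∈ Gd y m) (U : Submodule BaseK K)
    (hUE : ∀ u ∈ U, u ∈ Em y hy m) (hU : U ≠ ⊥)
    (hs : ∀ u ∈ U, D (a * u) + vv y m * (a * u) ∈ U) :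
    ∀ x ∈ Em y hy m, x ∈ U := by
  have hp0 : emb K p ≠ 0 := fun h => hp (emb_injective (K := K) (by rw [h, map_zero]))
  have hall := irr_good y hy D hD m (consts y hy D hD m) (emb K p * a)
    (mul_ne_zero hp0 ha) hpa (U.map (LinearMap.mulLeft BaseK a))
    (by
      rintro _ ⟨u, hu, rfl⟩
      exact mul_mem haE (hUE u hu))
    (by
      obtain ⟨u, hu, hu0⟩ := (Submodule.ne_bot_iff _).1 hU
      rw [Submodule.ne_bot_iff]
      exact ⟨a * u, ⟨u, hu, rfl⟩, mul_ne_zero ha hu0⟩)
    (by
      rintro _ ⟨u, hu, rfl⟩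
      have h1 := hs u hu
      have h2 : emb K p * a * (D (LinearMap.mulLeft BaseK a u)
          + vv y m * (LinearMap.mulLeft BaseK a u))
          = (algebraMap PolA BaseK p) •
            (LinearMap.mulLeft BaseK a (D (a * u) + vv y m * (a * u))) := by
        rw [Algebra.smul_def]
        simp only [LinearMap.mulLeft_apply]
        unfold emb
        simp only [RingHom.comp_apply]
        ring
      rw [h2]
      exact Submodule.smul_mem _ _ ⟨_, h1, rfl⟩)
  intro x hx
  obtain ⟨u, hu, hux⟩ := hall (a * x) (mul_mem haE hx)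
  have : u = x := mul_left_cancel₀ ha hux
  rwa [← this]

end

end Pool.Agent.MP_f38670_al
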