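import Pool.Agent.MP_f38670_al.Build

set_option autoImplicit false

namespace Pool.Agent.MP_f38670_al

open Finset MvPolynomial

theorem exists_K : ∃ (K : Type) (_ : Field K) (_ : Algebra BaseK K) (y : ℕ → K),
    (∀ i, y i * y i = algebraMap BaseK K (tk i)) ∧
    ⊤ ≤ Submodule.span BaseK (Set.range (Y y)) := by
  have hex : ∀ i, ∃ z : AlgebraicClosure BaseK,
      z * z = algebraMap BaseK (AlgebraicClosure BaseK) (tk i) := by
    intro i
    obtain ⟨z, hz⟩ := IsAlgClosed.exists_pow_nat_eq
      (algebraMap BaseK (AlgebraicClosure BaseK) (tk i)) (n := 2) (by norm_num)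
    exact ⟨z, by rw [← hz]; ring⟩
  choose y0 hy0 using hex
  have hch := charP_K (AlgebraicClosure BaseK)
  let F := fld y0 tk hy0 Set.univ (Set.mem_univ _) (fun _ _ _ _ => Set.mem_univ _)
  have hmem : ∀ S, Y y0 S ∈ F := by
    intro S
    rw [mem_fld]
    exact Submodule.subset_span ⟨S, Set.mem_univ _, rfl⟩
  let y : ℕ → F := fun i => ⟨y0 i, by simpa [Y_singleton] using hmem {i}⟩
  have hY : ∀ S, ((Y y S : F) : AlgebraicClosure BaseK) = Y y0 S := by
    intro S
    unfold Y
    exact map_prod (algebraMap F (AlgebraicClosure BaseK)) _ _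
  refine ⟨F, inferInstance, inferInstance, y, ?_, ?_⟩
  · intro i
    apply Subtype.ext
    exact hy0 i
  · intro x _
    have hx : (x : AlgebraicClosure BaseK) ∈ Submodule.span BaseK (Y y0 '' Set.univ) := x.2
    have h1 : Y y0 '' Set.univ = (F.val.toLinearMap) '' (Set.range (Y y)) := by
      ext z
      constructor
      · rintro ⟨S, _, rfl⟩
        exact ⟨Y y S, ⟨S, rfl⟩, hY S⟩
      · rintro ⟨_, ⟨S, rfl⟩, rfl⟩
        exact ⟨S, Set.mem_univ _, (hY S).symm⟩
    rw [h1, Submodule.span_image] at hx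
    obtain ⟨x', hx', hxx⟩ := hx
    have : x' = x := Subtype.ext hxx
    rwa [← this]

end Pool.Agent.MP_f38670_al
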