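import Pool.Agent.MP_f38670_al.Consts

set_option autoImplicit false

namespace Pool.Agent.MP_f38670_al

open Finset MvPolynomial

section

variable {K : Type*} [Field K] [Algebra BaseK K] [CharP K 2] (y : ℕ → K)
  (hy : ∀ i, y i * y i = algebraMap BaseK K (tk i))

theorem exists_level (hsp : ⊤ ≤ Submodule.span BaseK (Set.range (Y y))) (x : K) :
    ∃ N, x ∈ Em y hy N := by
  have hx : x ∈ Submodule.span BaseK (Set.range (Y y)) := hsp trivial
  refine Submodule.span_induction (p := fun x _ => ∃ N, x ∈ Em y hy N) ?_ ?_ ?_ ?_ hx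
  · rintro _ ⟨S, rfl⟩
    refine ⟨S.sup id + 1, Y_mem_Em y hy _ S ?_⟩
    intro i hi
    have : i ≤ S.sup id := Finset.le_sup (f := id) hi
    exact Finset.mem_range.2 (by omega)
  · exact ⟨0, zero_mem _⟩
  · rintro x z _ _ ⟨N, hN⟩ ⟨M, hM⟩
    exact ⟨max N M, add_mem (Em_mono y hy (le_max_left _ _) hN)
      (Em_mono y hy (le_max_right _ _) hM)⟩
  · rintro c x _ ⟨N, hN⟩
    exact ⟨N, (Em y hy N).smul_mem hN⟩

theorem D_y (D : Derivation BaseK K K)
    (hD : ∀ S, D (Y y S) = (∑ i ∈ S, vv y i) * Y y S) (m : ℕ) : D (y m) = vv y m * y m := by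
  have := hD {m}
  simpa [Y_singleton] using this

theorem step (D : Derivation BaseK K K)
    (hD : ∀ S, D (Y y S) = (∑ i ∈ S, vv y i) * Y y S)
    (HK : Submodule BaseK K) (m : ℕ) (a : K) (ha : a ≠ 0) (haH : a ∈ HK)
    (hbr : ∀ z ∈ HK, D (a * z) ∈ HK) (haE : a ∈ Em y hy m) (p : PolA) (hp : p ≠ 0)
    (hpa : emb K p * a ∈ Gd y m) (x : K) (hx : x ∈ HK) (hx1 : x ∈ Em y hy (m + 1))
    (hx2 : x ∉ Em y hy m) : ∀ q ∈ Em y hy m, q * y m ∈ HK := by
  have hT : ∀ q ∈ Em y hy m, D (a * q) + vv y m * (a * q) ∈ Em y hy m := by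
    intro q hq
    exact add_mem (D_mem_Em y hy D hD m _ (mul_mem haE hq))
      (mul_mem (vv_mem_Em y hy m m le_rfl) (mul_mem haE hq))
  have hDT : ∀ q, D (a * (q * y m)) = (D (a * q) + vv y m * (a * q)) * y m := by
    intro q
    rw [← mul_assoc, Derivation.leibniz, D_y y D hD m]
    simp only [smul_eq_mul]
    ring
  -- the projection
  let P : Submodule BaseK K :=
    { carrier := {q | q ∈ Em y hy m ∧ ∃ r ∈ Em y hy m, r + q * y m ∈ HK}
      add_mem' := by
        rintro q q' ⟨hq, r, hr, h⟩ ⟨hq', r', hr', h'⟩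
        refine ⟨add_mem hq hq', r + r', add_mem hr hr', ?_⟩
        have : r + r' + (q + q') * y m = (r + q * y m) + (r' + q' * y m) := by ring
        rw [this]
        exact add_mem h h'
      zero_mem' := ⟨zero_mem _, 0, zero_mem _, by simp⟩
      smul_mem' := by
        rintro c q ⟨hq, r, hr, h⟩
        refine ⟨(Em y hy m).smul_mem hq, c • r, (Em y hy m).smul_mem hr, ?_⟩
        rw [smul_mul_assoc, ← smul_add]
        exact Submodule.smul_mem _ _ h }
  have hPall : ∀ q ∈ Em y hy m, q ∈ P := by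
    apply irr_T y hy D hD m a ha haE p hp hpa P (fun u hu => hu.1)
    · obtain ⟨p0, hp0, q0, hq0, rfl⟩ := Em_succ y hy m x hx1
      rw [Submodule.ne_bot_iff]
      refine ⟨q0, ⟨hq0, p0, hp0, hx⟩, ?_⟩
      rintro rfl
      apply hx2
      simpa using hp0
    · rintro q ⟨hq, r, hr, h⟩
      refine ⟨hT q hq, D (a * r), D_mem_Em y hy D hD m _ (mul_mem haE hr), ?_⟩
      have h1 := hbr _ h
      rw [mul_add, map_add, hDT] at h1
      exact h1
  let G : Submodule BaseK K :=
    { carrier := {q | q ∈ Em y hy m ∧ q * y m ∈ HK}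
      add_mem' := by
        rintro q q' ⟨hq, h⟩ ⟨hq', h'⟩
        refine ⟨add_mem hq hq', ?_⟩
        rw [add_mul]
        exact add_mem h h'
      zero_mem' := ⟨zero_mem _, by simp⟩
      smul_mem' := by
        rintro c q ⟨hq, h⟩
        refine ⟨(Em y hy m).smul_mem hq, ?_⟩
        rw [smul_mul_assoc]
        exact Submodule.smul_mem _ _ h }
  have hG : G ≠ ⊥ := by
    intro hbot
    have hG0 : ∀ q ∈ Em y hy m, q * y m ∈ HK → q = 0 := by
      intro q hq h
      have : q ∈ G := ⟨hq, h⟩
      rw [hbot] at this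
      simpa using this
    let E := Em y hy m
    let Φ : (E × E) →ₗ[BaseK] K :=
      { toFun := fun z => (z.1 : K) + (z.2 : K) * y m
        map_add' := by
          intro z w
          simp only [Prod.fst_add, Prod.snd_add, AddMemClass.coe_add]
          ring
        map_smul' := by
          intro c z
          have h1 : (((c • z).1 : E) : K) = c • ((z.1 : E) : K) := rfl
          have h2 : (((c • z).2 : E) : K) = c • ((z.2 : E) : K) := rfl
          rw [h1, h2, RingHom.id_apply, smul_add, smul_mul_assoc] }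
    let W : Submodule BaseK (E × E) := HK.comap Φ
    have hW : ∀ z : E × E, z ∈ W ↔ (z.1 : K) + (z.2 : K) * y m ∈ HK := fun z => Iff.rfl
    let f1 : W →ₗ[BaseK] E := (LinearMap.fst BaseK E E) ∘ₗ W.subtype
    let f2 : W →ₗ[BaseK] E := (LinearMap.snd BaseK E E) ∘ₗ W.subtype
    have hf1 : Function.Injective f1 := by
      rw [injective_iff_map_eq_zero]
      rintro ⟨⟨r, q⟩, hz⟩ h
      have hr : r = 0 := h
      rw [hW] at hz
      simp only [hr, ZeroMemClass.coe_zero, zero_add] at hz
      have hq : (q : K) = 0 := hG0 q q.2 hz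
      apply Subtype.ext
      apply Prod.ext
      · exact hr
      · exact Subtype.ext hq
    have hf2 : Function.Surjective f2 := by
      intro q
      obtain ⟨_, r, hr, h⟩ := hPall q q.2
      exact ⟨⟨(⟨r, hr⟩, q), h⟩, rfl⟩
    have hle1 : Module.finrank BaseK W ≤ Module.finrank BaseK E :=
      LinearMap.finrank_le_finrank_of_injective hf1
    have hle2 : Module.finrank BaseK E ≤ Module.finrank BaseK W :=
      LinearMap.finrank_le_finrank_of_surjective hf2
    have heq : Module.finrank BaseK W = Module.finrank BaseK E := le_antisymm hle1 hle2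
    have hinj2 : Function.Injective f2 :=
      (LinearMap.injective_iff_surjective_of_finrank_eq_finrank heq).2 hf2
    have hmem : ((⟨a, haE⟩ : E), (0 : E)) ∈ W := by
      rw [hW]
      simpa using haH
    have h3 : (⟨((⟨a, haE⟩ : E), (0 : E)), hmem⟩ : W) = 0 := by
      apply hinj2
      rw [map_zero]
      rfl
    apply ha
    have h4 := congrArg (fun z : W => ((z : E × E).1 : K)) h3
    exact h4
  have hGall : ∀ q ∈ Em y hy m, q ∈ G := by
    apply irr_T y hy D hD m a ha haE p hp hpa G (fun u hu => hu.1) hG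
    rintro q ⟨hq, h⟩
    refine ⟨hT q hq, ?_⟩
    rw [← hDT]
    exact hbr _ h
  exact fun q hq => (hGall q hq).2

theorem sub_main (hsp : ⊤ ≤ Submodule.span BaseK (Set.range (Y y))) (D : Derivation BaseK K K)
    (hD : ∀ S, D (Y y S) = (∑ i ∈ S, vv y i) * Y y S)
    (HK : Submodule BaseK K) (hbr : ∀ x ∈ HK, ∀ z ∈ HK, D (x * z) ∈ HK)
    (hinf : ∀ n, ∃ x ∈ HK, x ∉ Em y hy n) : ∀ x, D x ∈ HK := by
  obtain ⟨a, haH, haE0⟩ := hinf 0
  have ha : a ≠ 0 := by
    rintro rfl
    exact haE0 (zero_mem _)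
  obtain ⟨p, hp, m0, hm0⟩ := exists_scale y hsp a
  have hp0 : emb K p ≠ 0 := fun h => hp (emb_injective (K := K) (by rw [h, map_zero]))
  have haE : ∀ m ≥ m0, a ∈ Em y hy m := by
    intro m hm
    have h1 := Gd_le_Em y hy m _ (hm0 m hm)
    have h2 : (emb K p)⁻¹ ∈ Em y hy m := by
      apply inv_mem
      unfold emb
      exact (Em y hy m).algebraMap_mem _
    have h3 : a = (emb K p)⁻¹ * (emb K p * a) := by
      field_simp
    rw [h3]
    exact mul_mem h2 h1
  have key : ∀ n, ∃ m ≥ n, ∀ q ∈ Em y hy m, q * y m ∈ HK := by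
    intro n
    obtain ⟨x, hx, hxn⟩ := hinf (max n m0)
    have hex := exists_level y hy hsp x
    classical
    have hspec := Nat.find_spec hex
    have hmin := fun k => Nat.find_min hex (m := k)
    set N := Nat.find hex with hN
    have hlt : max n m0 < N := by
      by_contra hcon
      push Not at hcon
      exact hxn (Em_mono y hy hcon hspec)
    obtain ⟨m, hm⟩ : ∃ m, N = m + 1 := ⟨N - 1, by omega⟩
    have hmm0 : m0 ≤ m := by
      have := le_max_right n m0
      omega
    have hmn : n ≤ m := by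
      have := le_max_left n m0
      omega
    refine ⟨m, hmn, ?_⟩
    refine step y hy D hD HK m a ha haH (fun z hz => hbr a haH z hz) (haE m hmm0) p hp
      (hm0 m hmm0) x hx (hm ▸ hspec) (hmin m (by omega))
  intro x
  obtain ⟨n, hn⟩ := exists_level y hy hsp x
  obtain ⟨m, hm, hall⟩ := key n
  have h1 := hall x (Em_mono y hy hm hn)
  have h2 := hall 1 (one_mem _)
  have h3 := hbr _ h1 _ h2
  have h4 : D (x * y m * (1 * y m)) = (tk m) • D x := by
    have : x * y m * (1 * y m) = (tk m) • x := by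
      rw [Algebra.smul_def, ← hy m]
      ring
    rw [this, D.map_smul]
  rw [h4] at h3
  have htk : tk m ≠ 0 := by
    intro h
    apply y_ne_zero y hy m
    have := hy m
    rw [h, map_zero] at this
    exact mul_self_eq_zero.1 this
  have h5 := Submodule.smul_mem HK (tk m)⁻¹ h3
  rwa [smul_smul, inv_mul_cancel₀ htk, one_smul] at h5

end

end Pool.Agent.MP_f38670_al
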