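import Mathlib

set_option autoImplicit false

namespace Pool.Agent.MP_f38670_al

section

variable {k K : Type*} [Field k] [Field K] [Algebra k K]

/-- The range of the derivation, as a vector space. -/
def LD (D : Derivation k K K) : Type _ := LinearMap.range (D : K →ₗ[k] K)

noncomputable instance (D : Derivation k K K) : AddCommGroup (LD D) :=
  inferInstanceAs (AddCommGroup (LinearMap.range (D : K →ₗ[k] K)))

noncomputable instance (D : Derivation k K K) : Module k (LD D) :=
  inferInstanceAs (Module k (LinearMap.range (D : K →ₗ[k] K)))

/-- Inclusion. -/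
def LD.incl (D : Derivation k K K) : LD D →ₗ[k] K :=
  (LinearMap.range (D : K →ₗ[k] K)).subtype

theorem LD.incl_injective (D : Derivation k K K) : Function.Injective (LD.incl D) :=
  (LinearMap.range (D : K →ₗ[k] K)).injective_subtype

/-- Elements of `LD` from elements of `K`. -/
def LD.mk (D : Derivation k K K) (x : K) : LD D := ⟨D x, ⟨x, rfl⟩⟩

theorem LD.incl_mk (D : Derivation k K K) (x : K) : LD.incl D (LD.mk D x) = D x := rfl

theorem LD.exists_mk (D : Derivation k K K) (z : LD D) : ∃ x, z = LD.mk D x := by
  obtain ⟨_, x, rfl⟩ := z
  exact ⟨x, rfl⟩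

variable [CharP K 2]

noncomputable instance (D : Derivation k K K) : LieRing (LD D) where
  bracket x z := LD.mk D (LD.incl D x * LD.incl D z)
  add_lie := by
    intro x z w
    apply LD.incl_injective
    simp only [LD.incl_mk, map_add, add_mul]
  lie_add := by
    intro x z w
    apply LD.incl_injective
    simp only [LD.incl_mk, map_add, mul_add]
  lie_self := by
    intro x
    apply LD.incl_injective
    simp only [LD.incl_mk, map_zero, Derivation.leibniz, CharTwo.add_self_eq_zero]
  leibniz_lie := by
    intro x z w
    apply LD.incl_injective
    simp only [LD.incl_mk, map_add]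
    rw [← map_add]
    congr 1
    simp only [Derivation.leibniz, smul_eq_mul]
    have h : (2 : K) = 0 := CharTwo.two_eq_zero
    linear_combination (-(LD.incl D z * LD.incl D w * D (LD.incl D x))) * h

theorem LD.incl_lie (D : Derivation k K K) (x z : LD D) :
    LD.incl D ⁅x, z⁆ = D (LD.incl D x * LD.incl D z) := rfl

noncomputable instance (D : Derivation k K K) : LieAlgebra k (LD D) where
  lie_smul := by
    intro c x z
    apply LD.incl_injective
    rw [map_smul, LD.incl_lie, LD.incl_lie, map_smul, mul_smul_comm, D.map_smul]

end

end Pool.Agent.MP_f38670_al
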