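import Pool.Agent.MP_f38670_al.Final1
import Pool.Agent.MP_f38670_al.ExistsK
import Pool.Agent.MP_f38670_al.LieAlg

set_option autoImplicit false

namespace Pool.Agent.MP_f38670_al

open Finset MvPolynomial

theorem main : ∃ (K : Type) (_ : Field K) (L : Type) (_ : LieRing L) (_ : LieAlgebra K L),
      ¬ FiniteDimensional K L ∧
        ∀ H : LieSubalgebra K L, H ≠ ⊤ → FiniteDimensional K H := by
  obtain ⟨K, _, _, y, hy, hsp⟩ := exists_K
  have hch := charP_K K
  obtain ⟨D, hD⟩ := exists_deriv y tk hy (Y_li y hy) hsp (vv y)
  have hfin : ∀ (W : Submodule BaseK (LD D)), (∃ n, ∀ x ∈ W, LD.incl D x ∈ Em y hy n) →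
      FiniteDimensional BaseK W := by
    rintro W ⟨n, hn⟩
    let f : W →ₗ[BaseK] Em y hy n :=
      { toFun := fun x => ⟨LD.incl D x.1, hn x.1 x.2⟩
        map_add' := by
          intro a b
          apply Subtype.ext
          exact map_add (LD.incl D) _ _
        map_smul' := by
          intro c a
          apply Subtype.ext
          exact map_smul (LD.incl D) _ _ }
    apply FiniteDimensional.of_injective f
    intro a b hab
    apply Subtype.ext
    apply LD.incl_injective D
    exact congrArg (fun z : Em y hy n => (z : K)) hab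
  refine ⟨BaseK, inferInstance, LD D, inferInstance, inferInstance, ?_, ?_⟩
  · intro hfd
    obtain ⟨s, hs⟩ := (Module.finite_def.1 hfd)
    have hlev := exists_level y hy hsp
    choose N hN using hlev
    classical
    set n := s.sup (fun x => N (LD.incl D x)) with hn
    have hall : ∀ x : LD D, LD.incl D x ∈ Em y hy n := by
      intro x
      have hx : x ∈ Submodule.span BaseK (s : Set (LD D)) := by rw [hs]; trivial
      refine Submodule.span_induction (p := fun x _ => LD.incl D x ∈ Em y hy n) ?_ ?_ ?_ ?_ hx
      · intro z hz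
        refine Em_mono y hy ?_ (hN _)
        exact Finset.le_sup (f := fun x => N (LD.incl D x)) hz
      · rw [map_zero]; exact zero_mem _
      · intro a b _ _ ha hb
        rw [map_add]; exact add_mem ha hb
      · intro c a _ ha
        rw [map_smul]; exact (Em y hy n).smul_mem ha
    have h1 := hall (LD.mk D (y n))
    rw [LD.incl_mk, D_y y D hD n] at h1
    apply y_notMem_Em y hy n
    have h2 : y n = (vv y n)⁻¹ * (vv y n * y n) := by
      have := vv_ne_zero y hy n
      field_simp
    rw [h2]
    exact mul_mem (inv_mem (vv_mem_Em y hy n n le_rfl)) h1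
  · intro H hH
    by_contra hnf
    apply hH
    let HK : Submodule BaseK K := H.toSubmodule.map (LD.incl D)
    have hmain := sub_main y hy hsp D hD HK
      (by
        rintro _ ⟨a, ha, rfl⟩ _ ⟨b, hb, rfl⟩
        exact ⟨⁅a, b⁆, H.lie_mem ha hb, LD.incl_lie D a b⟩)
      (by
        intro n
        by_contra hcon
        push Not at hcon
        apply hnf
        exact hfin H.toSubmodule ⟨n, fun x hx => hcon _ ⟨x, hx, rfl⟩⟩)
    rw [eq_top_iff]
    intro z _
    obtain ⟨x, rfl⟩ := LD.exists_mk D z
    obtain ⟨w, hw, hwx⟩ := hmain x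
    have : w = LD.mk D x := LD.incl_injective D (by rw [hwx, LD.incl_mk])
    rw [← this]
    exact hw

end Pool.Agent.MP_f38670_al
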