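import Pool.Agent.MP_f38670_al.Tower

set_option autoImplicit false

namespace Pool.Agent.MP_f38670_al

open Finset

section

variable {k K : Type*} [Field k] [Field K] [Algebra k K] (y : ℕ → K) (t : ℕ → k)

theorem sq_mem_range [CharP K 2] (hy : ∀ i, y i * y i = algebraMap k K (t i))
    (x : K) (hx : x ∈ Submodule.span k (Set.range (Y y))) :
    ∃ c : k, x * x = algebraMap k K c := by
  refine Submodule.span_induction (p := fun x _ => ∃ c : k, x * x = algebraMap k K c)
    ?_ ?_ ?_ ?_ hx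
  · rintro _ ⟨S, rfl⟩
    refine ⟨∏ i ∈ S, t i, ?_⟩
    have h := Y_mul' y t hy S S
    simpa [Y_empty] using h
  · exact ⟨0, by simp⟩
  · rintro x z _ _ ⟨c, hc⟩ ⟨d, hd⟩
    refine ⟨c + d, ?_⟩
    rw [map_add, ← hc, ← hd, CharTwo.add_mul_self]
  · rintro c x _ ⟨d, hd⟩
    refine ⟨c * c * d, ?_⟩
    rw [Algebra.smul_def, map_mul, map_mul, ← hd]
    ring

/-- The subfield spanned by the products `Y S`, `S ∈ P`. -/
def fld [CharP K 2] (hy : ∀ i, y i * y i = algebraMap k K (t i)) (P : Set (Finset ℕ))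
    (h0 : ∅ ∈ P) (hs : ∀ S ∈ P, ∀ T ∈ P, symmDiff S T ∈ P) : IntermediateField k K where
  carrier := {x | x ∈ Submodule.span k (Y y '' P)}
  mul_mem' := by
    intro a b ha hb
    simp only [Set.mem_ofPred_eq] at ha hb ⊢
    refine Submodule.span_induction (p := fun a _ => a * b ∈ Submodule.span k (Y y '' P))
      ?_ ?_ ?_ ?_ ha
    · rintro _ ⟨S, hS, rfl⟩
      refine Submodule.span_induction
        (p := fun b _ => Y y S * b ∈ Submodule.span k (Y y '' P)) ?_ ?_ ?_ ?_ hb
      · rintro _ ⟨T, hT, rfl⟩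
        rw [Y_mul' y t hy, ← Algebra.smul_def]
        exact Submodule.smul_mem _ _ (Submodule.subset_span ⟨_, hs S hS T hT, rfl⟩)
      · simp
      · intro x z _ _ hx hz
        rw [mul_add]
        exact add_mem hx hz
      · intro c x _ hx
        rw [mul_smul_comm]
        exact Submodule.smul_mem _ _ hx
    · simp
    · intro x z _ _ hx hz
      rw [add_mul]
      exact add_mem hx hz
    · intro c x _ hx
      rw [smul_mul_assoc]
      exact Submodule.smul_mem _ _ hx
  add_mem' := by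
    intro a b ha hb
    simp only [Set.mem_ofPred_eq] at ha hb ⊢
    exact Submodule.add_mem _ ha hb
  algebraMap_mem' := by
    intro r
    simp only [Set.mem_ofPred_eq]
    rw [Algebra.algebraMap_eq_smul_one, ← Y_empty y]
    exact Submodule.smul_mem _ _ (Submodule.subset_span ⟨_, h0, rfl⟩)
  inv_mem' := by
    intro x hx
    simp only [Set.mem_ofPred_eq] at hx ⊢
    by_cases hx0 : x = 0
    · rw [hx0, inv_zero]; exact zero_mem _
    obtain ⟨c, hc⟩ := sq_mem_range y t hy x
      (Submodule.span_mono (Set.image_subset_range _ _) hx)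
    have hc0 : algebraMap k K c ≠ 0 := by
      rw [← hc]; exact mul_ne_zero hx0 hx0
    have hinv : x⁻¹ = c⁻¹ • x := by
      rw [Algebra.smul_def, map_inv₀, ← hc]
      field_simp
    rw [hinv]
    exact Submodule.smul_mem _ _ hx

theorem mem_fld [CharP K 2] (hy : ∀ i, y i * y i = algebraMap k K (t i)) (P : Set (Finset ℕ))
    (h0 : ∅ ∈ P) (hs : ∀ S ∈ P, ∀ T ∈ P, symmDiff S T ∈ P) (x : K) :
    x ∈ fld y t hy P h0 hs ↔ x ∈ Submodule.span k (Y y '' P) := Iff.rfl

end

end Pool.Agent.MP_f38670_al
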