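import Pool.Agent.MP_f38670_al.Build

set_option autoImplicit false

namespace Pool.Agent.MP_f38670_al

open Finset MvPolynomial

/-- Variables other than the `s_{m,S}`. -/
def okVars (m : ℕ) : Set Idx := {v | ∀ S, v ≠ Sum.inr (m, S)}

section

variable {K : Type*} [Field K] [Algebra BaseK K]

/-- The embedding of the polynomial ring. -/
noncomputable def emb (K : Type*) [Field K] [Algebra BaseK K] : PolA →+* K :=
  (algebraMap BaseK K).comp (algebraMap PolA BaseK)

theorem emb_injective : Function.Injective (emb K) :=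
  (algebraMap BaseK K).injective.comp (IsFractionRing.injective PolA BaseK)

/-- Image of the polynomials not involving `s_{m,S}`. -/
noncomputable def Rm (K : Type*) [Field K] [Algebra BaseK K] (m : ℕ) : Subring K :=
  ((supported (ZMod 2) (okVars m)).toSubring).map (emb K)

theorem mem_Rm (m : ℕ) (p : PolA) (hp : p ∈ supported (ZMod 2) (okVars m)) :
    emb K p ∈ Rm K m := ⟨p, hp, rfl⟩

theorem emb_tA_mem (m i : ℕ) : emb K (tA i) ∈ Rm K m := by
  apply mem_Rm
  unfold tA
  rw [X_mem_supported]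
  intro S h
  cases h

theorem emb_sA_mem (m n : ℕ) (h : n ≠ m) (S : Finset ℕ) : emb K (sA n S) ∈ Rm K m := by
  apply mem_Rm
  unfold sA
  rw [X_mem_supported]
  intro S' h'
  have := Sum.inr.inj h'
  exact h (Prod.mk.inj this).1

/-- polynomial logarithmic derivative. -/
noncomputable def vv (y : ℕ → K) (m : ℕ) : K :=
  ∑ S ∈ (range m).powerset, emb K (sA m S) * Y y S

/-- Elements with good coordinates. -/
noncomputable def Gd (y : ℕ → K) (m : ℕ) : Submodule (Rm K m) K :=
  Submodule.span (Rm K m) (Y y '' {S | S ⊆ range m})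

theorem emb_mul_mem_Gd (y : ℕ → K) (m : ℕ) (r : K) (hr : r ∈ Rm K m) (x : K) (hx : x ∈ Gd y m) :
    r * x ∈ Gd y m := Submodule.smul_mem (Gd y m) (⟨r, hr⟩ : Rm K m) hx

theorem Gd_mul (y : ℕ → K) (hy : ∀ i, y i * y i = algebraMap BaseK K (tk i)) (m : ℕ) (a b : K)
    (ha : a ∈ Gd y m) (hb : b ∈ Gd y m) : a * b ∈ Gd y m := by
  refine Submodule.span_induction (p := fun a _ => a * b ∈ Gd y m) ?_ ?_ ?_ ?_ ha
  · rintro _ ⟨S, hS, rfl⟩
    refine Submodule.span_induction (p := fun b _ => Y y S * b ∈ Gd y m) ?_ ?_ ?_ ?_ hb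
    · rintro _ ⟨T, hT, rfl⟩
      rw [Y_mul' y tk hy, map_prod]
      apply emb_mul_mem_Gd
      · apply Subring.prod_mem
        intro i _
        exact emb_tA_mem m i
      · apply Submodule.subset_span
        refine ⟨_, ?_, rfl⟩
        intro i hi
        rcases Finset.mem_symmDiff.1 hi with h | h
        · exact hS h.1
        · exact hT h.1
    · simp
    · intro x z _ _ hx hz
      rw [mul_add]
      exact add_mem hx hz
    · intro c x _ hx
      rw [mul_smul_comm]
      exact Submodule.smul_mem _ _ hx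
  · simp
  · intro x z _ _ hx hz
    rw [add_mul]
    exact add_mem hx hz
  · intro c x _ hx
    rw [smul_mul_assoc]
    exact Submodule.smul_mem _ _ hx

theorem Gd_Y (y : ℕ → K) (m : ℕ) (S : Finset ℕ) (hS : S ⊆ range m) : Y y S ∈ Gd y m :=
  Submodule.subset_span ⟨S, hS, rfl⟩

theorem Gd_vv (y : ℕ → K) (m n : ℕ) (h : n < m) : vv y n ∈ Gd y m := by
  unfold vv
  apply Submodule.sum_mem
  intro S hS
  apply emb_mul_mem_Gd
  · exact emb_sA_mem m n (by omega) S
  · apply Gd_Y
    intro i hi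
    have := Finset.mem_range.1 (Finset.mem_powerset.1 hS hi)
    exact Finset.mem_range.2 (by omega)

theorem Gd_coeff (y : ℕ → K) (m : ℕ) (x : K) (hx : x ∈ Gd y m) :
    ∃ α : Finset ℕ → PolA, (∀ S, α S ∈ supported (ZMod 2) (okVars m)) ∧
      x = ∑ S ∈ (range m).powerset, emb K (α S) * Y y S := by
  refine Submodule.span_induction (p := fun x _ =>
    ∃ α : Finset ℕ → PolA, (∀ S, α S ∈ supported (ZMod 2) (okVars m)) ∧
      x = ∑ S ∈ (range m).powerset, emb K (α S) * Y y S) ?_ ?_ ?_ ?_ hx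
  · rintro _ ⟨S, hS, rfl⟩
    refine ⟨fun T => if T = S then 1 else 0, ?_, ?_⟩
    · intro T
      dsimp only
      split_ifs
      · exact one_mem _
      · exact zero_mem _
    · rw [Finset.sum_eq_single S]
      · simp
      · intro T _ hT
        simp [hT]
      · intro h
        exact absurd (Finset.mem_powerset.2 hS) h
  · exact ⟨fun _ => 0, fun _ => zero_mem _, by simp⟩
  · rintro x z _ _ ⟨α, hα, rfl⟩ ⟨β, hβ, rfl⟩
    refine ⟨fun S => α S + β S, fun S => add_mem (hα S) (hβ S), ?_⟩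
    rw [← Finset.sum_add_distrib]
    apply Finset.sum_congr rfl
    intro S _
    rw [map_add, add_mul]
  · rintro ⟨_, p, hp, rfl⟩ x _ ⟨α, hα, rfl⟩
    refine ⟨fun S => p * α S, fun S => mul_mem hp (hα S), ?_⟩
    have : ∀ z : K, (⟨(emb K) p, ⟨p, hp, rfl⟩⟩ : Rm K m) • z = emb K p * z := fun z => rfl
    rw [this, Finset.mul_sum]
    apply Finset.sum_congr rfl
    intro S _
    rw [map_mul]
    ring

variable (y : ℕ → K) (D : Derivation BaseK K K)
  (hD : ∀ S, D (Y y S) = (∑ i ∈ S, vv y i) * Y y S)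

include hD in
theorem Gd_D (hy : ∀ i, y i * y i = algebraMap BaseK K (tk i)) (m : ℕ) (x : K)
    (hx : x ∈ Gd y m) : D x ∈ Gd y m := by
  refine Submodule.span_induction (p := fun x _ => D x ∈ Gd y m) ?_ ?_ ?_ ?_ hx
  · rintro _ ⟨S, hS, rfl⟩
    rw [hD]
    apply Gd_mul y hy
    · apply Submodule.sum_mem
      intro i hi
      exact Gd_vv y m i (Finset.mem_range.1 (hS hi))
    · exact Gd_Y y m S hS
  · simp
  · intro x z _ _ hx hz
    rw [map_add]
    exact add_mem hx hz
  · rintro ⟨_, p, hp, rfl⟩ x _ hx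
    have h1 : ∀ z : K, (⟨(emb K) p, ⟨p, hp, rfl⟩⟩ : Rm K m) • z = emb K p * z := fun z => rfl
    rw [h1, Derivation.leibniz]
    have h2 : D (emb K p) = 0 := by
      unfold emb
      exact D.map_algebraMap _
    rw [h2, smul_zero, add_zero]
    exact emb_mul_mem_Gd y m _ (mem_Rm m p hp) _ hx

end

end Pool.Agent.MP_f38670_al
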