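import Pool.Agent.MP_f38670_al.CharZ

set_option autoImplicit false

namespace Pool.Agent.MP_f38670_al

open Finset Polynomial Matrix

section

variable {k E ι : Type*} [Field k] [Field E] [Algebra k E] [Fintype ι] [DecidableEq ι]
  [Module.Finite k E]

theorem gpoly_irreducible (D : Derivation k E E) (a : E) (ha : a ≠ 0) :
    Irreducible (gpoly D a) := by
  rw [← MulEquiv.irreducible_iff (Bivariate.swap (R := E))]
  have h1 : Bivariate.swap (gpoly D a) =
      C (C (-a)) * (X - C (C a⁻¹ * (LinearMap.charpoly (D : E →ₗ[k] E)).map (algebraMap k E))) := by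
    rw [gpoly, map_sub, ← Polynomial.map_map, Bivariate.swap_map_C, Bivariate.swap_C]
    rw [Polynomial.map_mul, map_C, map_X, mul_sub, ← C_mul, ← mul_assoc, ← C_mul]
    rw [neg_mul, mul_inv_cancel₀ ha]
    simp only [map_neg, map_one, neg_mul, one_mul, sub_neg_eq_add]
    ring
  rw [h1]
  have hu : IsUnit (C (C (-a)) : E[X][X]) := by
    rw [isUnit_C, isUnit_C]
    exact (neg_ne_zero.2 ha).isUnit
  rw [irreducible_isUnit_mul hu]
  exact (prime_X_sub_C _).irreducible

end

/-- If the characteristic polynomial is irreducible there are no invariant subspaces. -/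
theorem eq_top_of_irreducible_charpoly {k V : Type*} [Field k] [AddCommGroup V] [Module k V]
    [Module.Finite k V] (f : V →ₗ[k] V) (hf : Irreducible f.charpoly)
    (U : Submodule k V) (hU : U ≠ ⊥) (hs : ∀ u ∈ U, f u ∈ U) : U = ⊤ := by
  obtain ⟨u, huU, hu0⟩ := Submodule.exists_mem_ne_zero_of_ne_bot hU
  have hpow : ∀ n : ℕ, (f ^ n) u ∈ U := by
    intro n
    induction n with
    | zero => simpa using huU
    | succ n ih =>
      rw [pow_succ']
      exact hs _ ih
  have hdeg : f.charpoly.natDegree = Module.finrank k V := LinearMap.charpoly_natDegree f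
  have hind : LinearIndependent k (fun j : Fin (Module.finrank k V) => (f ^ (j : ℕ)) u) := by
    rw [Fintype.linearIndependent_iff]
    intro c hc
    by_contra hcon
    push Not at hcon
    obtain ⟨i0, hi0⟩ := hcon
    set q : k[X] := ∑ j : Fin (Module.finrank k V), C (c j) * X ^ (j : ℕ) with hq
    have hqc : ∀ i : Fin (Module.finrank k V), q.coeff i = c i := by
      intro i
      rw [hq, finset_sum_coeff]
      simp only [coeff_C_mul, coeff_X_pow]
      rw [Finset.sum_eq_single i]
      · simp
      · intro j _ hj
        rw [if_neg (fun h => hj (Fin.ext h.symm)), mul_zero]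
      · intro h; exact absurd (Finset.mem_univ _) h
    have hq0 : q ≠ 0 := by
      intro h
      apply hi0
      rw [← hqc i0, h, coeff_zero]
    have hqdeg : q.natDegree < Module.finrank k V := by
      have hpos : 0 < Module.finrank k V := by
        have := i0.2; omega
      have : q.degree < (Module.finrank k V : ℕ) := by
        rw [hq]
        refine (degree_sum_fin_lt c)
      exact (natDegree_lt_iff_degree_lt hq0).2 this
    have hqu : (aeval f q) u = 0 := by
      rw [hq, map_sum, LinearMap.sum_apply]
      rw [← hc]
      apply Finset.sum_congr rfl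
      intro j _
      rw [map_mul, aeval_C, map_pow, aeval_X, Module.End.mul_apply, Module.algebraMap_end_apply]
    have hcop : IsCoprime f.charpoly q := by
      rw [hf.coprime_iff_not_dvd]
      intro hdvd
      have := natDegree_le_of_dvd hdvd hq0
      omega
    obtain ⟨x, y, hxy⟩ := hcop
    have h1 : (aeval f (x * f.charpoly + y * q)) u = u := by
      rw [hxy]; simp
    rw [map_add, map_mul, map_mul, LinearMap.aeval_self_charpoly, mul_zero, zero_add,
      Module.End.mul_apply, hqu, map_zero] at h1
    exact hu0 h1.symm
  have hle : Module.finrank k V ≤ Module.finrank k U := by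
    have hind2 : LinearIndependent k
        (fun j : Fin (Module.finrank k V) => (⟨(f ^ (j : ℕ)) u, hpow j⟩ : U)) := by
      apply LinearIndependent.of_comp U.subtype
      exact hind
    have := hind2.fintype_card_le_finrank
    simpa using this
  exact Submodule.eq_top_of_finrank_eq (le_antisymm (Submodule.finrank_le U) hle)

end Pool.Agent.MP_f38670_al
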