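import Pool.Agent.MP_f38670_al.Irred

set_option autoImplicit false

namespace Pool.Agent.MP_f38670_al

open Finset Polynomial Matrix

/-- The irreducibility theorem: `a * (D0 + v)` has no proper invariant subspace. -/
theorem irr {A k E ι : Type*} [CommRing A] [IsDomain A] [IsIntegrallyClosed A] [Field k]
    [Algebra A k] [IsFractionRing A k] [Field E] [Algebra k E] [Module.Finite k E]
    [Fintype ι] [DecidableEq ι] (e : Module.Basis ι k E) (D0 : Derivation k E E)
    (hconst : ∀ x, D0 x = 0 → x ∈ Set.range (algebraMap k E)) (a : E) (ha : a ≠ 0)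
    (s : ι → A) (M : Matrix ι ι A) (N : ι → Matrix ι ι A)
    (hM : ∀ i, a * D0 (e i) = ∑ i', algebraMap k E (algebraMap A k (M i' i)) * e i')
    (hN : ∀ i0 i, a * e i * e i0 =
      ∑ i', algebraMap k E (algebraMap A k (N i0 i' i)) * e i')
    (hφ : ∀ ε : ι → E, ∃ φ : A →+* E[X], (∀ i, φ (s i) = C (ε i) * X) ∧
      (∀ i j, φ (M i j) = C (algebraMap k E (algebraMap A k (M i j)))) ∧
      (∀ i0 i j, φ (N i0 i j) = C (algebraMap k E (algebraMap A k (N i0 i j)))))
    (v : E) (hv : v = ∑ i, algebraMap k E (algebraMap A k (s i)) * e i)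
    (U : Submodule k E) (hU : U ≠ ⊥) (hs : ∀ u ∈ U, a * (D0 u + v * u) ∈ U) : U = ⊤ := by
  set D : Derivation k E E := a • D0 with hD
  have hDapp : ∀ x, D x = a * D0 x := fun x => by simp [hD]
  have hconst' : ∀ x, D x = 0 → x ∈ Set.range (algebraMap k E) := by
    intro x hx
    rw [hDapp] at hx
    exact hconst x ((mul_eq_zero.1 hx).resolve_left ha)
  obtain ⟨ε, hε⟩ := wronskian_surj e D hconst'
    (fun j => if (j : ℕ) + 1 = Fintype.card ι then 1 else 0)
  have hε' : ∀ l, l < Fintype.card ι →
      ∑ i, (D^[l] (e i)) * ε i = if l + 1 = Fintype.card ι then 1 else 0 :=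
    fun l hl => hε ⟨l, hl⟩
  obtain ⟨φ, hφs, hφM, hφN⟩ := hφ ε
  set T : Matrix ι ι A := M + ∑ i, s i • N i with hT
  have hmapφ : T.map φ = Zmat (M.map (algebraMap A k)) (fun i => (N i).map (algebraMap A k)) ε := by
    ext i j : 2
    simp only [hT, Zmat, Matrix.map_apply, Matrix.add_apply, Matrix.sum_apply, Matrix.smul_apply,
      smul_eq_mul, map_add, map_sum, map_mul, hφM, hφN, hφs]
  have hcpφ : T.charpoly.map φ = gpoly D a := by
    rw [← Matrix.charpoly_map, hmapφ]
    apply charpoly_Zmat e D hconst' a ε hε'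
    · intro i
      rw [hDapp, hM]
      rfl
    · intro i0 i
      rw [hN]
      rfl
  have hirrA : Irreducible T.charpoly := by
    apply Monic.irreducible_of_irreducible_map φ _ (Matrix.charpoly_monic T)
    rw [hcpφ]
    exact gpoly_irreducible D a ha
  have hirrk : Irreducible (T.charpoly.map (algebraMap A k)) :=
    (Monic.irreducible_iff_irreducible_map_fraction_map (Matrix.charpoly_monic T)).1 hirrA
  rw [← Matrix.charpoly_map] at hirrk
  set f : E →ₗ[k] E := (LinearMap.mulLeft k a) ∘ₗ ((D0 : E →ₗ[k] E) + LinearMap.mulLeft k v) with hf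
  have hfapp : ∀ x, f x = a * (D0 x + v * x) := fun x => by simp [hf]
  have hmat : LinearMap.toMatrix e e f = T.map (algebraMap A k) := by
    ext i j : 2
    rw [LinearMap.toMatrix_apply]
    have h1 : f (e j) = ∑ i', (T.map (algebraMap A k)) i' j • e i' := by
      rw [hfapp, mul_add, hM, hv]
      have h2 : a * ((∑ i, algebraMap k E (algebraMap A k (s i)) * e i) * e j)
          = ∑ i, algebraMap k E (algebraMap A k (s i)) * (a * e j * e i) := by
        rw [Finset.sum_mul, Finset.mul_sum]
        apply Finset.sum_congr rfl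
        intro i _
        ring
      rw [h2]
      simp only [hN]
      simp only [Finset.mul_sum]
      rw [Finset.sum_comm, ← Finset.sum_add_distrib]
      apply Finset.sum_congr rfl
      intro i' _
      rw [Algebra.smul_def]
      simp only [hT, Matrix.map_apply, Matrix.add_apply, Matrix.sum_apply, Matrix.smul_apply,
        smul_eq_mul, map_add, map_sum, map_mul, add_mul, Finset.sum_mul]
      congr 1
      apply Finset.sum_congr rfl
      intro i _
      ring
    rw [h1, map_sum]
    simp only [map_smul, Module.Basis.repr_self, Finsupp.smul_single, smul_eq_mul, mul_one]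
    rw [Finsupp.finset_sum_apply, Finset.sum_eq_single i]
    · simp
    · intro b _ hb
      simp [Finsupp.single_apply, hb]
    · intro h; exact absurd (Finset.mem_univ _) h
  have hcp : f.charpoly = (T.map (algebraMap A k)).charpoly := by
    rw [← hmat, LinearMap.charpoly_toMatrix]
  apply eq_top_of_irreducible_charpoly f (by rw [hcp]; exact hirrk) U hU
  intro u hu
  rw [hfapp]
  exact hs u hu

end Pool.Agent.MP_f38670_al
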