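import Pool.Agent.MP_f38670_al.Good
import Pool.Agent.MP_f38670_al.Main1

set_option autoImplicit false

namespace Pool.Agent.MP_f38670_al

open Finset MvPolynomial

section

variable {K : Type*} [Field K] [Algebra BaseK K] [CharP K 2] (y : ℕ → K)
  (hy : ∀ i, y i * y i = algebraMap BaseK K (tk i))

/-- The `m`-th level subfield. -/
noncomputable def Em (m : ℕ) : IntermediateField BaseK K :=
  fld y tk hy {S | S ⊆ range m} (Finset.empty_subset _) (by
    intro S hS T hT i hi
    rcases Finset.mem_symmDiff.1 hi with h | h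
    · exact hS h.1
    · exact hT h.1)

theorem mem_Em (m : ℕ) (x : K) :
    x ∈ Em y hy m ↔ x ∈ Submodule.span BaseK (Y y '' {S | S ⊆ range m}) := Iff.rfl

theorem Y_mem_Em (m : ℕ) (S : Finset ℕ) (hS : S ⊆ range m) : Y y S ∈ Em y hy m :=
  Submodule.subset_span ⟨S, hS, rfl⟩

theorem Em_mono {m n : ℕ} (h : m ≤ n) {x : K} (hx : x ∈ Em y hy m) : x ∈ Em y hy n := by
  rw [mem_Em] at hx ⊢
  refine Submodule.span_mono (Set.image_mono ?_) hx
  intro S hS
  exact hS.trans (Finset.range_mono h)

theorem emb_mul_mem_Em (m : ℕ) (p : PolA) (x : K) (hx : x ∈ Em y hy m) :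
    emb K p * x ∈ Em y hy m := by
  unfold emb
  simp only [RingHom.comp_apply]
  exact mul_mem ((Em y hy m).algebraMap_mem _) hx

theorem vv_mem_Em (m n : ℕ) (h : n ≤ m) : vv y n ∈ Em y hy m := by
  unfold vv
  apply sum_mem
  intro S hS
  apply emb_mul_mem_Em
  apply Y_mem_Em
  intro i hi
  have := Finset.mem_range.1 (Finset.mem_powerset.1 hS hi)
  exact Finset.mem_range.2 (by omega)

theorem Gd_le_Em (m : ℕ) (x : K) (hx : x ∈ Gd y m) : x ∈ Em y hy m := by
  obtain ⟨α, _, rfl⟩ := Gd_coeff y m x hx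
  apply sum_mem
  intro S hS
  apply emb_mul_mem_Em
  exact Y_mem_Em y hy m S (Finset.mem_powerset.1 hS)

theorem D_mem_Em (D : Derivation BaseK K K) (hD : ∀ S, D (Y y S) = (∑ i ∈ S, vv y i) * Y y S)
    (m : ℕ) (x : K) (hx : x ∈ Em y hy m) : D x ∈ Em y hy m := by
  rw [mem_Em] at hx
  refine Submodule.span_induction (p := fun x _ => D x ∈ Em y hy m) ?_ ?_ ?_ ?_ hx
  · rintro _ ⟨S, hS, rfl⟩
    rw [hD]
    apply mul_mem
    · apply sum_mem
      intro i hi
      exact vv_mem_Em y hy m i (le_of_lt (Finset.mem_range.1 (hS hi)))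
    · exact Y_mem_Em y hy m S hS
  · rw [map_zero]; exact zero_mem _
  · intro x z _ _ hx hz
    rw [map_add]
    exact add_mem hx hz
  · intro c x _ hx
    rw [D.map_smul]
    exact (Em y hy m).smul_mem hx

/-- The restricted derivation. -/
noncomputable def Dm (D : Derivation BaseK K K)
    (hD : ∀ S, D (Y y S) = (∑ i ∈ S, vv y i) * Y y S) (m : ℕ) :
    Derivation BaseK (Em y hy m) (Em y hy m) :=
  Derivation.mk'
    { toFun := fun x => ⟨D x, D_mem_Em y hy D hD m x x.2⟩
      map_add' := by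
        intro a b
        apply Subtype.ext
        exact map_add D _ _
      map_smul' := by
        intro c a
        apply Subtype.ext
        exact D.map_smul c _ }
    (by
      intro a b
      apply Subtype.ext
      exact D.leibniz _ _)

theorem Dm_apply (D : Derivation BaseK K K)
    (hD : ∀ S, D (Y y S) = (∑ i ∈ S, vv y i) * Y y S) (m : ℕ) (x : Em y hy m) :
    ((Dm y hy D hD m x : Em y hy m) : K) = D x := rfl

/-- Basis vectors of the level field. -/
noncomputable def eY (m : ℕ) (S : ((range m).powerset : Finset (Finset ℕ))) : Em y hy m :=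
  ⟨Y y S.1, Y_mem_Em y hy m S.1 (Finset.mem_powerset.1 S.2)⟩

theorem eY_li (m : ℕ) : LinearIndependent BaseK (eY y hy m) := by
  apply LinearIndependent.of_comp (Em y hy m).val.toLinearMap
  exact (Y_li y hy).comp (fun S : ((range m).powerset : Finset (Finset ℕ)) => S.1)
    Subtype.val_injective

theorem eY_span (m : ℕ) : ⊤ ≤ Submodule.span BaseK (Set.range (eY y hy m)) := by
  intro x _
  have hx : (x : K) ∈ Submodule.span BaseK (Y y '' {S | S ⊆ range m}) := x.2
  have h1 : Y y '' {S | S ⊆ range m} =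
      ((Em y hy m).val.toLinearMap) '' (Set.range (eY y hy m)) := by
    ext z
    constructor
    · rintro ⟨S, hS, rfl⟩
      exact ⟨eY y hy m ⟨S, Finset.mem_powerset.2 hS⟩, ⟨_, rfl⟩, rfl⟩
    · rintro ⟨_, ⟨S, rfl⟩, rfl⟩
      exact ⟨S.1, Finset.mem_powerset.1 S.2, rfl⟩
  rw [h1, Submodule.span_image] at hx
  obtain ⟨x', hx', hxx⟩ := hx
  have : x' = x := Subtype.ext hxx
  rwa [← this]

noncomputable def basisE (m : ℕ) :
    Module.Basis ((range m).powerset : Finset (Finset ℕ)) BaseK (Em y hy m) :=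
  Module.Basis.mk (eY_li y hy m) (eY_span y hy m)

theorem basisE_apply (m : ℕ) (S : ((range m).powerset : Finset (Finset ℕ))) :
    ((basisE y hy m S : Em y hy m) : K) = Y y S.1 := by
  unfold basisE
  rw [Module.Basis.mk_apply]
  rfl

instance finE (m : ℕ) : Module.Finite BaseK (Em y hy m) := Module.Finite.of_basis (basisE y hy m)

end

end Pool.Agent.MP_f38670_al
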