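import Pool.Agent.MP_f38670_al.Level

set_option autoImplicit false

namespace Pool.Agent.MP_f38670_al

open Finset MvPolynomial

section

variable {K : Type*} [Field K] [Algebra BaseK K] [CharP K 2] (y : ℕ → K)
  (hy : ∀ i, y i * y i = algebraMap BaseK K (tk i))

/-- The specialisation homomorphism. -/
theorem exists_phi (m : ℕ) (ε : ((range m).powerset : Finset (Finset ℕ)) → Em y hy m) :
    ∃ φ : PolA →+* Polynomial (Em y hy m),
      (∀ S : ((range m).powerset : Finset (Finset ℕ)),
        φ (sA m S.1) = Polynomial.C (ε S) * Polynomial.X) ∧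
      (∀ p ∈ supported (ZMod 2) (okVars m),
        φ p = Polynomial.C (algebraMap BaseK (Em y hy m) (algebraMap PolA BaseK p))) := by
  classical
  let ι : PolA →+* Em y hy m := (algebraMap BaseK (Em y hy m)).comp (algebraMap PolA BaseK)
  let g : Idx → Polynomial (Em y hy m) := fun v =>
    if h : ∃ S : ((range m).powerset : Finset (Finset ℕ)), v = Sum.inr (m, S.1) then
      Polynomial.C (ε h.choose) * Polynomial.X
    else Polynomial.C (ι (X v))
  let f : ZMod 2 →+* Polynomial (Em y hy m) := (Polynomial.C.comp ι).comp MvPolynomial.C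
  refine ⟨eval₂Hom f g, ?_, ?_⟩
  · intro S
    unfold sA
    rw [eval₂Hom_X']
    have hex : ∃ S' : ((range m).powerset : Finset (Finset ℕ)),
        (Sum.inr (m, S.1) : Idx) = Sum.inr (m, S'.1) := ⟨S, rfl⟩
    have hch : hex.choose = S := by
      have h1 := hex.choose_spec
      have h2 := Sum.inr.inj h1
      exact Subtype.ext (Prod.mk.inj h2).2.symm
    show g (Sum.inr (m, S.1)) = _
    simp only [g]
    rw [dif_pos hex, hch]
  · intro p hp
    have h1 : (Polynomial.C.comp ι) = eval₂Hom f (fun v => Polynomial.C (ι (X v))) := by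
      apply MvPolynomial.ringHom_ext
      · intro r
        rw [eval₂Hom_C]
        rfl
      · intro v
        rw [eval₂Hom_X']
        rfl
    have h2 : Polynomial.C (algebraMap BaseK (Em y hy m) (algebraMap PolA BaseK p))
        = (Polynomial.C.comp ι) p := rfl
    rw [h2, h1]
    apply eval₂Hom_congr' rfl _ rfl
    intro v hv _
    rw [mem_supported] at hp
    have hok := hp hv
    have hnex : ¬ ∃ S : ((range m).powerset : Finset (Finset ℕ)), v = Sum.inr (m, S.1) := by
      rintro ⟨S, hS⟩
      exact hok S.1 hS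
    simp only [g]
    rw [dif_neg hnex]

theorem irr_good (D : Derivation BaseK K K)
    (hD : ∀ S, D (Y y S) = (∑ i ∈ S, vv y i) * Y y S) (m : ℕ)
    (hconst : ∀ x ∈ Em y hy m, D x = 0 → ∃ c, algebraMap BaseK K c = x)
    (a : K) (ha : a ≠ 0) (hag : a ∈ Gd y m) (U : Submodule BaseK K)
    (hUE : ∀ u ∈ U, u ∈ Em y hy m) (hU : U ≠ ⊥) (hs : ∀ u ∈ U, a * (D u + vv y m * u) ∈ U) :
    ∀ x ∈ Em y hy m, x ∈ U := by
  classical
  set E := Em y hy m with hE
  set e := basisE y hy m with he
  have haE : a ∈ E := Gd_le_Em y hy m a hag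
  -- coefficients of `a * D (Y S)`
  have hM : ∀ S : ((range m).powerset : Finset (Finset ℕ)), ∃ α : Finset ℕ → PolA,
      (∀ T, α T ∈ supported (ZMod 2) (okVars m)) ∧
      a * D (Y y S.1) = ∑ T ∈ (range m).powerset, emb K (α T) * Y y T := by
    intro S
    apply Gd_coeff
    apply Gd_mul y hy _ _ _ hag
    apply Gd_D y D hD hy
    exact Gd_Y y m S.1 (Finset.mem_powerset.1 S.2)
  have hN : ∀ S0 S : ((range m).powerset : Finset (Finset ℕ)), ∃ α : Finset ℕ → PolA,
      (∀ T, α T ∈ supported (ZMod 2) (okVars m)) ∧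
      a * Y y S.1 * Y y S0.1 = ∑ T ∈ (range m).powerset, emb K (α T) * Y y T := by
    intro S0 S
    apply Gd_coeff
    apply Gd_mul y hy
    · apply Gd_mul y hy _ _ _ hag
      exact Gd_Y y m S.1 (Finset.mem_powerset.1 S.2)
    · exact Gd_Y y m S0.1 (Finset.mem_powerset.1 S0.2)
  choose αM hαM1 hαM2 using hM
  choose αN hαN1 hαN2 using hN
  have hsum : ∀ α : Finset ℕ → PolA,
      ((∑ T : ((range m).powerset : Finset (Finset ℕ)),
        algebraMap BaseK E (algebraMap PolA BaseK (α T.1)) * e T : E) : K)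
      = ∑ T ∈ (range m).powerset, emb K (α T) * Y y T := by
    intro α
    rw [← Finset.sum_coe_sort ((range m).powerset) (fun T => emb K (α T) * Y y T)]
    rw [AddSubmonoidClass.coe_finsetSum]
    apply Finset.sum_congr rfl
    intro T _
    rw [he]
    have := basisE_apply y hy m T
    rw [MulMemClass.coe_mul, this]
    rfl
  let U' : Submodule BaseK E := U.comap E.val.toLinearMap
  have hmemU' : ∀ u : E, u ∈ U' ↔ (u : K) ∈ U := fun u => Iff.rfl
  have key : U' = ⊤ := by
    refine irr e (Dm y hy D hD m) ?_ (⟨a, haE⟩ : E) ?_ (fun S => sA m S.1)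
      (fun S' S => αM S S'.1) (fun S0 S' S => αN S0 S S'.1) ?_ ?_ ?_
      (⟨vv y m, vv_mem_Em y hy m m le_rfl⟩ : E) ?_ U' ?_ ?_
    · intro x hx
      have h1 : D (x : K) = 0 := by
        rw [← Dm_apply y hy D hD m x, hx]
        rfl
      obtain ⟨c, hc⟩ := hconst x x.2 h1
      exact ⟨c, Subtype.ext hc⟩
    · intro h
      exact ha (congrArg (fun z : E => (z : K)) h)
    · intro S
      apply Subtype.ext
      rw [hsum (fun T => αM S T), ← hαM2 S, MulMemClass.coe_mul, Dm_apply, he, basisE_apply]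
    · intro S0 S
      apply Subtype.ext
      rw [hsum (fun T => αN S0 S T), ← hαN2 S0 S, MulMemClass.coe_mul, MulMemClass.coe_mul, he,
        basisE_apply, basisE_apply]
    · intro ε
      obtain ⟨φ, h1, h2⟩ := exists_phi y hy m ε
      exact ⟨φ, h1, fun S' S => h2 _ (hαM1 S _), fun S0 S' S => h2 _ (hαN1 S0 S _)⟩
    · apply Subtype.ext
      rw [hsum (fun T => sA m T)]
      rfl
    · intro h
      apply hU
      rw [Submodule.eq_bot_iff] at h ⊢
      intro u hu
      have h1 := h (⟨u, hUE u hu⟩ : E) hu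
      exact congrArg (fun z : E => (z : K)) h1
    · intro u hu
      rw [hmemU'] at hu ⊢
      exact hs _ hu
  intro x hx
  have h1 : (⟨x, hx⟩ : E) ∈ U' := by rw [key]; trivial
  exact h1

end

end Pool.Agent.MP_f38670_al
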