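import Mathlib

set_option autoImplicit false

namespace Pool.Agent.MP_f38670_al

open Finset

section

variable {K : Type*} [CommRing K] (y : ℕ → K)

/-- Products of the generators. -/
def Y (S : Finset ℕ) : K := ∏ i ∈ S, y i

theorem Y_empty : Y y ∅ = 1 := by simp [Y]

theorem Y_singleton (i : ℕ) : Y y {i} = y i := by simp [Y]

theorem Y_mul (S T : Finset ℕ) :
    Y y S * Y y T = (∏ i ∈ S ∩ T, (y i * y i)) * Y y (symmDiff S T) := by
  have h1 : S ∪ T = symmDiff S T ∪ (S ∩ T) := by
    ext i
    simp only [mem_union, Finset.mem_symmDiff, mem_inter]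
    tauto
  have hdis : Disjoint (symmDiff S T) (S ∩ T) := by
    rw [Finset.disjoint_left]
    intro i
    simp only [Finset.mem_symmDiff, mem_inter]
    tauto
  unfold Y
  rw [← Finset.prod_union_inter, h1, Finset.prod_union hdis, Finset.prod_mul_distrib]
  ring

theorem sum_symmDiff_char_two [CharP K 2] (v : ℕ → K) (S T : Finset ℕ) :
    ∑ i ∈ symmDiff S T, v i = ∑ i ∈ S, v i + ∑ i ∈ T, v i := by
  have h1 : S ∪ T = symmDiff S T ∪ (S ∩ T) := by
    ext i
    simp only [mem_union, Finset.mem_symmDiff, mem_inter]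
    tauto
  have hdis : Disjoint (symmDiff S T) (S ∩ T) := by
    rw [Finset.disjoint_left]
    intro i
    simp only [Finset.mem_symmDiff, mem_inter]
    tauto
  rw [← Finset.sum_union_inter, h1, Finset.sum_union hdis, add_assoc, CharTwo.add_self_eq_zero,
    add_zero]

end

section

variable {k K : Type*} [Field k] [Field K] [Algebra k K] (y : ℕ → K) (t : ℕ → k)

theorem Y_mul' (hy : ∀ i, y i * y i = algebraMap k K (t i)) (S T : Finset ℕ) :
    Y y S * Y y T = algebraMap k K (∏ i ∈ S ∩ T, t i) * Y y (symmDiff S T) := by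
  rw [Y_mul, map_prod]
  simp only [hy]

/-- Existence of the derivation with prescribed logarithmic derivatives. -/
theorem exists_deriv [CharP K 2] (hy : ∀ i, y i * y i = algebraMap k K (t i))
    (hli : LinearIndependent k (Y y)) (hsp : ⊤ ≤ Submodule.span k (Set.range (Y y)))
    (v : ℕ → K) : ∃ D : Derivation k K K, ∀ S, D (Y y S) = (∑ i ∈ S, v i) * Y y S := by
  let b := Module.Basis.mk hli hsp
  have hb : ∀ S, b S = Y y S := fun S => Module.Basis.mk_apply hli hsp S
  let H : K →ₗ[k] K := b.constr k (fun S => (∑ i ∈ S, v i) * Y y S)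
  have hH : ∀ S, H (Y y S) = (∑ i ∈ S, v i) * Y y S := by
    intro S
    rw [← hb S, Module.Basis.constr_basis, hb S]
  have hall : ∀ x : K, x ∈ Submodule.span k (Set.range (Y y)) := fun x => hsp trivial
  have hleib : ∀ a b : K, H (a * b) = a • H b + b • H a := by
    intro a b
    simp only [smul_eq_mul]
    refine Submodule.span_induction (p := fun a _ => H (a * b) = a * H b + b * H a)
      ?_ ?_ ?_ ?_ (hall a)
    · rintro _ ⟨S, rfl⟩
      refine Submodule.span_induction (p := fun b _ => H (Y y S * b) = Y y S * H b + b * H (Y y S))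
        ?_ ?_ ?_ ?_ (hall b)
      · rintro _ ⟨T, rfl⟩
        rw [Y_mul' y t hy, ← Algebra.smul_def, map_smul, hH, hH, hH, sum_symmDiff_char_two,
          Algebra.smul_def]
        have h1 : Y y S * ((∑ i ∈ T, v i) * Y y T) + Y y T * ((∑ i ∈ S, v i) * Y y S)
            = (∑ i ∈ S, v i + ∑ i ∈ T, v i) * (Y y S * Y y T) := by ring
        rw [h1, Y_mul' y t hy]
        ring
      · simp
      · intro x z _ _ hx hz
        rw [mul_add, map_add, map_add, hx, hz]
        ring
      · intro c x _ hx
        rw [mul_smul_comm, map_smul, map_smul, hx]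
        simp only [Algebra.smul_def]
        ring
    · simp
    · intro x z _ _ hx hz
      rw [add_mul, map_add, map_add, hx, hz]
      ring
    · intro c x _ hx
      rw [smul_mul_assoc, map_smul, map_smul, hx]
      simp only [Algebra.smul_def]
      ring
  exact ⟨Derivation.mk' H hleib, fun S => hH S⟩

end

end Pool.Agent.MP_f38670_al
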