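import Mathlib

set_option autoImplicit false

namespace Pool.Agent.MP_f38670_al

open Finset

section W

variable {k E ι : Type*} [Field k] [Field E] [Algebra k E] [DecidableEq ι]

/-- Wronskian-type lemma: a derivation `D` of a field `E` with constants `k`; a family which is
linearly independent over `k` has no nontrivial `E`-linear relation stable under all `D^n`. -/
theorem wronskian_aux (D : Derivation k E E)
    (hconst : ∀ x, D x = 0 → x ∈ Set.range (algebraMap k E))
    (e : ι → E) (he : LinearIndependent k e) (s : Finset ι) :
    ∀ c : ι → E, (∀ n : ℕ, ∑ i ∈ s, (D^[n] (e i)) * c i = 0) → ∀ i ∈ s, c i = 0 := by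
  induction s using Finset.induction_on with
  | empty => intro c _ i hi; simp at hi
  | insert i0 s hi0 ih =>
    intro c hc
    have key : c i0 = 0 := by
      by_contra hne
      -- normalise
      set d : ι → E := fun i => c i / c i0 with hd
      have hd0 : d i0 = 1 := by simp [hd, hne]
      have hdn : ∀ n : ℕ, D^[n] (e i0) + ∑ i ∈ s, (D^[n] (e i)) * d i = 0 := by
        intro n
        have h := hc n
        rw [Finset.sum_insert hi0] at h
        have : (D^[n] (e i0)) * c i0 / c i0 + (∑ i ∈ s, (D^[n] (e i)) * c i) / c i0 = 0 := by
          rw [← add_div, h, zero_div]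
        rw [mul_div_assoc, div_self hne, mul_one, Finset.sum_div] at this
        simpa [hd, mul_div_assoc] using this
      have hder : ∀ n : ℕ, ∑ i ∈ s, (D^[n] (e i)) * D (d i) = 0 := by
        intro n
        have h1 := congrArg D (hdn n)
        rw [map_add, map_zero, map_sum] at h1
        have h2 := hdn (n+1)
        simp only [Function.iterate_succ_apply'] at h2
        have h3 : ∀ i ∈ s, D ((D^[n] (e i)) * d i)
            = (D (D^[n] (e i))) * d i + (D^[n] (e i)) * D (d i) := by
          intro i _
          rw [Derivation.leibniz]
          simp only [smul_eq_mul]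
          ring
        rw [Finset.sum_congr rfl h3, Finset.sum_add_distrib, ← add_assoc, h2, zero_add] at h1
        exact h1
      have hz := ih (fun i => D (d i)) hder
      have hk : ∀ i, ∃ x : k, i ∈ s → algebraMap k E x = d i := by
        intro i
        by_cases hi : i ∈ s
        · obtain ⟨x, hx⟩ := hconst _ (hz i hi)
          exact ⟨x, fun _ => hx⟩
        · exact ⟨0, fun h => absurd h hi⟩
      choose x hx using hk
      have h0 := hdn 0
      simp only [Function.iterate_zero, id_eq] at h0
      have hrel : ∑ i ∈ insert i0 s, (if i = i0 then (1:k) else x i) • e i = 0 := by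
        rw [Finset.sum_insert hi0]
        simp only [if_true, one_smul]
        rw [← h0]
        congr 1
        apply Finset.sum_congr rfl
        intro i hi
        have : i ≠ i0 := fun h => hi0 (h ▸ hi)
        simp only [this, if_false, Algebra.smul_def]
        rw [hx i hi, mul_comm]
      have := linearIndependent_iff'.1 he (insert i0 s) _ hrel i0 (Finset.mem_insert_self _ _)
      simp at this
    intro i hi
    rcases Finset.mem_insert.1 hi with rfl | hi
    · exact key
    · refine ih c (fun n => ?_) i hi
      have h := hc n
      rw [Finset.sum_insert hi0, key, mul_zero, zero_add] at h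
      exact h

end W

end Pool.Agent.MP_f38670_al
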