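import Pool.Agent.MP_f38670_al.Wronskian

set_option autoImplicit false

namespace Pool.Agent.MP_f38670_al

open Finset Polynomial

section W

variable {k E ι : Type*} [Field k] [Field E] [Algebra k E] [Fintype ι] [DecidableEq ι]

theorem aeval_apply_sum (D : E →ₗ[k] E) (p : k[X]) (x : E) :
    (aeval D p) x = ∑ j ∈ range (p.natDegree + 1), algebraMap k E (p.coeff j) * (D^[j] x) := by
  rw [aeval_eq_sum_range, LinearMap.sum_apply]
  apply Finset.sum_congr rfl
  intro j _
  rw [LinearMap.smul_apply, Module.End.pow_apply, Algebra.smul_def]

variable [Module.Finite k E]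

/-- Cayley-Hamilton for a derivation, in explicit form. -/
theorem ch_explicit (e : Module.Basis ι k E) (D : Derivation k E E) (x : E) (n : ℕ) :
    D^[Fintype.card ι + n] x =
      - ∑ j ∈ range (Fintype.card ι),
        algebraMap k E ((LinearMap.charpoly (D : E →ₗ[k] E)).coeff j) * (D^[j + n] x) := by
  have hdeg : (LinearMap.charpoly (D : E →ₗ[k] E)).natDegree = Fintype.card ι := by
    rw [LinearMap.charpoly_natDegree, Module.finrank_eq_card_basis e]
  have h := LinearMap.aeval_self_charpoly (D : E →ₗ[k] E)
  have h2 := aeval_apply_sum (D : E →ₗ[k] E) (LinearMap.charpoly (D : E →ₗ[k] E)) (D^[n] x)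
  rw [h] at h2
  have hlead : (LinearMap.charpoly (D : E →ₗ[k] E)).coeff (Fintype.card ι) = 1 := by
    rw [← hdeg]
    exact LinearMap.charpoly_monic _
  rw [hdeg, Finset.sum_range_succ, hlead, map_one, one_mul, LinearMap.zero_apply] at h2
  have h3 : ∀ j, ((D : E →ₗ[k] E) : E → E)^[j] (D^[n] x) = D^[j + n] x := by
    intro j
    rw [Function.iterate_add_apply]
    rfl
  simp only [h3] at h2
  rw [eq_comm, neg_eq_iff_add_eq_zero]
  exact h2.symm

theorem wronskian_surj (e : Module.Basis ι k E) (D : Derivation k E E)
    (hconst : ∀ x, D x = 0 → x ∈ Set.range (algebraMap k E))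
    (τ : Fin (Fintype.card ι) → E) :
    ∃ c : ι → E, ∀ j : Fin (Fintype.card ι), ∑ i, (D^[(j : ℕ)] (e i)) * c i = τ j := by
  let Φ : (ι → E) →ₗ[E] (Fin (Fintype.card ι) → E) :=
    { toFun := fun c j => ∑ i, (D^[(j : ℕ)] (e i)) * c i
      map_add' := by
        intro c c'
        funext j
        simp [mul_add, Finset.sum_add_distrib]
      map_smul' := by
        intro a c
        funext j
        simp only [Pi.smul_apply, smul_eq_mul, RingHom.id_apply, Finset.mul_sum]
        apply Finset.sum_congr rfl
        intro i _
        ring }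
  have hinj : Function.Injective Φ := by
    rw [injective_iff_map_eq_zero]
    intro c hc
    have h0 : ∀ n : ℕ, ∑ i, (D^[n] (e i)) * c i = 0 := by
      intro n
      induction n using Nat.strong_induction_on with
      | _ n ih =>
        by_cases hn : n < Fintype.card ι
        · exact congrFun hc ⟨n, hn⟩
        · push Not at hn
          obtain ⟨m, rfl⟩ := Nat.exists_eq_add_of_le hn
          have h1 : ∀ i ∈ (Finset.univ : Finset ι), (D^[Fintype.card ι + m] (e i)) * c i
              = - ∑ j ∈ range (Fintype.card ι),
                algebraMap k E ((LinearMap.charpoly (D : E →ₗ[k] E)).coeff j) *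
                  ((D^[j + m] (e i)) * c i) := by
            intro i _
            rw [ch_explicit e D (e i) m, neg_mul, Finset.sum_mul]
            congr 1
            apply Finset.sum_congr rfl
            intro j _
            ring
          rw [Finset.sum_congr rfl h1, Finset.sum_neg_distrib, Finset.sum_comm, neg_eq_zero]
          apply Finset.sum_eq_zero
          intro j hj
          rw [← Finset.mul_sum, ih (j + m) (by have := Finset.mem_range.1 hj; omega), mul_zero]
    funext i
    exact wronskian_aux D hconst e e.linearIndependent Finset.univ c h0 i (Finset.mem_univ _)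
  have hsurj : Function.Surjective Φ := by
    refine (LinearMap.injective_iff_surjective_of_finrank_eq_finrank ?_).1 hinj
    simp
  obtain ⟨c, hc⟩ := hsurj τ
  exact ⟨c, fun j => congrFun hc j⟩

end W

end Pool.Agent.MP_f38670_al
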